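import Pool.Agent.Y5.E.Defs

/-! Statements of the steps (Navier-Stokes with additional linear dissipation of finite order). -/

open Set Filter Topology MeasureTheory

set_option autoImplicit false

namespace Pool.Agent.Y5.E

open Pool.Agent.Y5.D

/-- Well-posedness of abstract quadratic systems with damping in weighted `ℓ²`. -/
def S_ABS2 : Prop := ∀ (I : Type) (d r : I → ℝ) (c : I → I → I → ℝ), Adm d r c →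
  -- uniqueness
  (∀ (T : ℝ) (z z' : I → ℝ → ℝ), ASol2 d r c T z → ASol2 d r c T z' → (∀ i, z i 0 = z' i 0) →
    ∀ i, ∀ t ∈ Ico 0 T, z i t = z' i t) ∧
  -- existence
  (∀ z₀ : I → ℝ, (∀ k : ℕ, Sk r k z₀) →
    ∃ z : I → ℝ → ℝ, (∀ i, z i 0 = z₀ i) ∧
      ((∀ T, ASol2 d r c T z ∧ Rapid r T z) ∨
        ∃ T, 0 < T ∧ ASol2 d r c T z ∧ Rapid r T z ∧
          ¬ ∃ M, ∀ t ∈ Ico 0 T, nk r 1 (fun a => z a t) ≤ M))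

/-- The kernels satisfy the hypotheses of `S_ABS2`. -/
def S_EST2 : Prop := ∀ (J : Type) (g : J → ℕ) (lam Λ M : ℝ) (L C ℓ : ℕ → ℝ) (B : ℕ → ℕ → ℝ)
  (c : Ix J → Ix J → Ix J → ℝ), Ker g Λ M L C B c → Sq lam Λ M L C ℓ B →
  Adm (dE ℓ L (Real.exp lam) g) (rI L g) c

/-- Energy identity and the reduced system. -/
def S_PERT2 : Prop := ∀ (J : Type) (g : J → ℕ) (lam Λ M : ℝ) (L C ℓ : ℕ → ℝ) (B : ℕ → ℕ → ℝ)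
  (c : Ix J → Ix J → Ix J → ℝ), Ker g Λ M L C B c → Sq lam Λ M L C ℓ B →
  ∀ (T : ℝ) (z : Ix J → ℝ → ℝ), ASol2 (dE ℓ L (Real.exp lam) g) (rI L g) c T z →
    Rapid (rI L g) T z → Init z →
    (∀ t ∈ Ico 0 T, Summable (fun a => z a t ^ 2) ∧ ∑' a, z a t ^ 2 ≤ 1) ∧
    (∀ t ∈ Ico 0 T, Summable (fun a => dE ℓ L (Real.exp lam) g a * z a t ^ 2) ∧
      HasDerivWithinAt (fun τ => ∑' a, z a τ ^ 2)
      (-(2 * ∑' a, dE ℓ L (Real.exp lam) g a * z a t ^ 2)) (Ico 0 T) t) ∧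
    ∃ f : ℕ → ℝ → ℝ, Sys lam (10 ^ 6 * M ^ 4) (Real.exp lam) L C ℓ B T
      (fun n => z (Sum.inl n)) (wz g z) f

/-- Blow-up for the reduced system. -/
def S_ODE4 : Prop := ∀ (lam Λ M : ℝ) (L C ℓ : ℕ → ℝ) (B : ℕ → ℕ → ℝ), Sq lam Λ M L C ℓ B →
  ∃ T₁ : ℝ, ∀ (T : ℝ) (x w f : ℕ → ℝ → ℝ), 0 < T →
    Sys lam (10 ^ 6 * M ^ 4) (Real.exp lam) L C ℓ B T x w f →
    T ≤ T₁ ∧ (Grow lam T x w ∨
      ∃ (n₀ : ℕ) (K₀ : ℝ), ∃ s ∈ Ico 0 T, ∀ t ∈ Ico s T, ∀ k : ℕ,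
        √(Yt x w (n₀ + k) t) ≤ K₀ * Real.exp (-(lam / 100 * k)))

/-- Blow-up for the full system of the modes. -/
def S_BLOW2 : Prop := ∀ (J : Type) (g : J → ℕ) (lam Λ M : ℝ) (L C ℓ : ℕ → ℝ) (B : ℕ → ℕ → ℝ)
  (c : Ix J → Ix J → Ix J → ℝ), Ker g Λ M L C B c → Sq lam Λ M L C ℓ B →
  ∃ (T : ℝ) (z : Ix J → ℝ → ℝ), 0 < T ∧
    ASol2 (dE ℓ L (Real.exp lam) g) (rI L g) c T z ∧ Init z ∧ Rapid (rI L g) T z ∧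
    (∀ (T' : ℝ) (z' : Ix J → ℝ → ℝ), 0 < T' →
      ASol2 (dE ℓ L (Real.exp lam) g) (rI L g) c T' z' → Init z' →
      T' ≤ T ∧ ∀ a, ∀ t ∈ Ico 0 T', z' a t = z a t) ∧
    (∀ t ∈ Ico 0 T, Summable (fun a => z a t ^ 2) ∧ ∑' a, z a t ^ 2 ≤ 1) ∧
    (∀ t ∈ Ico 0 T, Summable (fun a => dE ℓ L (Real.exp lam) g a * z a t ^ 2) ∧
      HasDerivWithinAt (fun τ => ∑' a, z a τ ^ 2)
      (-(2 * ∑' a, dE ℓ L (Real.exp lam) g a * z a t ^ 2)) (Ico 0 T) t) ∧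
    Grow lam T (fun n => z (Sum.inl n)) (wz g z)

/-- Assembly of the blow-up for the full system. -/
def S_BLOWA2 : Prop := S_ABS2 → S_EST2 → S_PERT2 → S_ODE4 → S_BLOW2

/-- Existence of packets of trigonometric polynomials with the interaction table. -/
def S_TAB2 : Prop := ∃ (β D : ℝ) (p K₁ : ℕ), 0 < β ∧ 0 < D ∧ 0 < K₁ ∧
  ∀ (K : ℕ → ℕ) (γ : ℕ → ℝ), K₁ ≤ K 0 → (∀ n, K₁ * K n ≤ K (n + 1)) → (∀ n, 20 ∣ K n) →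
    (∀ n, 0 < γ n ∧ γ n * ((K (n + 1) : ℝ) / K n) ^ p ≤ 1) →
    ∃ (h : ℕ → Z3) (P : ℕ → Fam) (C : ℕ → ℝ) (B : ℕ → ℕ → ℝ), Tab2 K γ β D p h P C B

/-- Choice of the scales `K n = K₀ * R ^ n`, `Λ = R`, `lam = R ^ (5/2)`. -/
def S_SEQ2 : Prop := ∀ (ν α β D : ℝ) (p K₁ : ℕ), 0 < ν → 1 ≤ α → α < 5 / 4 → 0 < β → 0 < D →
  0 < K₁ → ∃ (K₀ R : ℕ) (lam γ : ℝ) (ℓ : ℕ → ℝ), K₁ ≤ K₀ ∧ 20 ∣ K₀ ∧ 10 ^ 6 ≤ K₀ ∧ K₁ ≤ R ∧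
    10 ^ 12 ≤ R ∧ lam = (R : ℝ) ^ 2 * √(R : ℝ) ∧ 0 < γ ∧ γ * (R : ℝ) ^ p ≤ 1 ∧
    (∀ n : ℕ, 2 * (ν * ((2 * Real.pi) ^ (2 * α) * (4 * ((K₀ : ℝ) * R ^ n) ^ (2 * α)))) ≤ ℓ n) ∧
    (∀ n : ℕ, 2 * (ν * (2 * Real.pi * (13 / 10 * ((K₀ : ℝ) * R ^ (n + 1)))) ^ (2 * α)) ≤
      Real.exp lam * (β * (((K₀ : ℝ) * R ^ n) ^ 2 * √((K₀ : ℝ) * R ^ n)))) ∧
    1 ≤ D * ((K₀ : ℝ) * √(K₀ : ℝ)) ∧
    (R : ℝ) * √(R : ℝ) ≤ Real.exp (lam / 1000) * D ∧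
    ∀ (C : ℕ → ℝ) (B : ℕ → ℕ → ℝ), (∀ n, γ ≤ C n * (R : ℝ) ^ p) →
      (∀ n, C n ≤ γ * (R : ℝ) ^ p) → (∀ i n, i < n → 999 / 1000 ≤ B i n) →
      (∀ i n, i < n → B i n ≤ 1001 / 1000) →
      Sq lam R (1 + 100 * (R : ℝ) ^ 3 / β)
        (fun n => β * (((K₀ : ℝ) * R ^ n) ^ 2 * √((K₀ : ℝ) * R ^ n))) C ℓ B

/-- The concrete kernel: packets of trigonometric polynomials, completed to an orthonormal
system. -/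
def S_CONC2 : Prop := ∀ ν α : ℝ, 0 < ν → 1 ≤ α → α < 5 / 4 →
  ∃ (J : Type) (g : J → ℕ) (lam Λ M : ℝ) (F L C ℓ N G : ℕ → ℝ)
  (B : ℕ → ℕ → ℝ) (e : Ix J → Fam), Conc2 ν α lam g F L ℓ N G e ∧ Sq lam Λ M L C ℓ B ∧
    Ker g Λ M L C B (fun j a b => bil (e a) (e b) (e j))

/-- Completion of the packets to an orthonormal system, and bounds for the kernel. -/
def S_ONB2 : Prop := S_TAB2 → S_SEQ2 → S_CONC2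

/-- Quantities of fields in terms of the coefficients. -/
def S_FLD2 : Prop := S_FLD ∧ ∀ V, OT V → Rap V → ∀ k, cf (fieldOf V) k = V k

/-- The main theorem: for every `α < 5/4` the Navier-Stokes equations with a suitable linear
dissipation `L`, `ν (-Δ)^α ≤ L ≤ C (-Δ)^(5/4)`, can blow up. -/
def S_MAIN3 : Prop := ∀ ν α : ℝ, 0 < ν → 1 ≤ α → α < 5 / 4 →
  ∃ (ι : Type) (e : ι → E3 → E3) (lam : ι → ℝ) (i₀ : ι) (T : ℝ) (u : ℝ → E3 → E3),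
    Diss3 ν α e lam ∧ 0 < T ∧ Sol2 e lam T u ∧ u 0 = e i₀ ∧
    -- uniqueness, and `T` is the maximal time of existence
    (∀ (T' : ℝ) (v : ℝ → E3 → E3), 0 < T' → Sol2 e lam T' v → v 0 = e i₀ →
      T' ≤ T ∧ ∀ t ∈ Ico 0 T', v t = u t) ∧
    -- energy identity
    (∀ t ∈ Ico 0 T, HasDerivWithinAt (fun τ => ip (u τ) (u τ))
      (-(2 * ∑' i, lam i * ip (u t) (e i) ^ 2)) (Ico 0 T) t) ∧
    -- blow-up of the velocity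
    ∀ M : ℝ, ∃ t ∈ Ico 0 T, ∃ y, M < ‖u t y‖

/-- The passage to fields. -/
def S_PHYS2 : Prop := S_FLD2 → S_BLOW2 → S_CONC2 → S_MAIN3

end Pool.Agent.Y5.E
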