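import Pool.Agent.Y5.E.Stm

/-!
Assembly of `S_BLOW2` (Navier-Stokes with additional linear dissipation of finite order,
plan of helper5; job 985).
-/

open Set Filter Topology MeasureTheory

set_option autoImplicit false

namespace Pool.Agent.Y5.E.Bl

open Pool.Agent.Y5.D Pool.Agent.Y5.E

theorem ASol2.mono {I : Type} {d r : I → ℝ} {c : I → I → I → ℝ} {T T' : ℝ} {z : I → ℝ → ℝ}
    (h : ASol2 d r c T z) (hT : T' ≤ T) : ASol2 d r c T' z where
  deriv := fun i t ht => (h.deriv i t ⟨ht.1, lt_of_lt_of_le ht.2 hT⟩).mono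
    (Ico_subset_Ico_right hT)
  bdd := fun T'' hT'' => h.bdd T'' (lt_of_lt_of_le hT'' hT)

theorem L_ge_one {lam Λ M : ℝ} {L C ℓ : ℕ → ℝ} {B : ℕ → ℕ → ℝ} (h : Sq lam Λ M L C ℓ B)
    (n : ℕ) : 1 ≤ L n := by
  induction n with
  | zero => exact h.L0
  | succ n ih =>
    rw [h.L_succ n]
    have h1 : (1 : ℝ) ≤ lam := le_trans (by norm_num) h.lam_big
    nlinarith

theorem L_add {lam Λ M : ℝ} {L C ℓ : ℕ → ℝ} {B : ℕ → ℕ → ℝ} (h : Sq lam Λ M L C ℓ B)
    (n k : ℕ) : L (n + k) = L n * lam ^ k := by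
  induction k with
  | zero => simp
  | succ k ih =>
    rw [← add_assoc, h.L_succ, ih]
    ring

/-- the initial datum -/
noncomputable def dat (J : Type) : Ix J → ℝ
  | Sum.inl 0 => 1
  | Sum.inl (_ + 1) => 0
  | Sum.inr _ => 0

theorem init_of {J : Type} {z : Ix J → ℝ → ℝ} (h : ∀ i, z i 0 = dat J i) : Init z :=
  ⟨h _, fun _ => h _, fun _ => h _⟩

theorem init_eq {J : Type} {z z' : Ix J → ℝ → ℝ} (h : Init z) (h' : Init z') (i : Ix J) :
    z i 0 = z' i 0 := by
  rcases i with n | w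
  · cases n with
    | zero => rw [h.1, h'.1]
    | succ n => rw [h.2.1, h'.2.1]
  · rw [h.2.2, h'.2.2]

theorem dat_Sk {J : Type} (r : Ix J → ℝ) (k : ℕ) : Sk r k (dat J) := by
  unfold Sk
  apply summable_of_ne_finset_zero (s := {Sum.inl 0})
  intro b hb
  rcases b with n | w
  · cases n with
    | zero => exact absurd (Finset.mem_singleton_self _) hb
    | succ n => simp [dat]
  · simp [dat]

section groups

variable {J : Type} (g : J → ℕ) (z : Ix J → ℝ → ℝ) (t : ℝ)

theorem summ_ite (hs : Summable fun a => z a t ^ 2) (n : ℕ) :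
    Summable fun j : J => if g j = n then z (Sum.inr j) t ^ 2 else 0 := by
  have h1 : Summable fun j : J => z (Sum.inr j) t ^ 2 := hs.comp_injective Sum.inr_injective
  refine Summable.of_nonneg_of_le (fun j => ?_) (fun j => ?_) h1
  · split_ifs
    · positivity
    · exact le_rfl
  · split_ifs
    · exact le_rfl
    · positivity

theorem wz_sq (n : ℕ) : wz g z n t ^ 2 = ∑' j : J, if g j = n then z (Sum.inr j) t ^ 2 else 0 := by
  unfold wz
  rw [Real.sq_sqrt]
  apply tsum_nonneg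
  intro j
  split_ifs
  · positivity
  · exact le_rfl

theorem summ_groups (hs : Summable fun a => z a t ^ 2) :
    Summable fun n => z (Sum.inl n) t ^ 2 + wz g z n t ^ 2 := by
  apply Summable.add
  · exact hs.comp_injective Sum.inl_injective
  · have h1 : Summable fun j : J => z (Sum.inr j) t ^ 2 := hs.comp_injective Sum.inr_injective
    have h2 := ((Equiv.sigmaFiberEquiv g).summable_iff (f := fun j : J => z (Sum.inr j) t ^ 2)).2 h1
    have h3 := h2.sigma
    refine h3.congr (fun n => ?_)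
    rw [wz_sq]
    have h4 := tsum_subtype {j : J | g j = n} (fun j : J => z (Sum.inr j) t ^ 2)
    simp only [Function.comp, Equiv.sigmaFiberEquiv_apply]
    refine Eq.trans (Eq.symm ?_) (Eq.trans h4.symm rfl) |>.symm
    congr 1
    ext j
    simp [Set.indicator]

theorem group_le (hs : Summable fun a => z a t ^ 2) (F : Finset (Ix J)) (n : ℕ) :
    ∑ a ∈ F.filter (fun a => gr g a = n), z a t ^ 2 ≤ z (Sum.inl n) t ^ 2 + wz g z n t ^ 2 := by
  classical
  have h1 : ∑ a ∈ F.filter (fun a => gr g a = n), z a t ^ 2 ≤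
      ∑' a : Ix J, if gr g a = n then z a t ^ 2 else 0 := by
    have hs' : Summable fun a : Ix J => if gr g a = n then z a t ^ 2 else 0 := by
      refine Summable.of_nonneg_of_le (fun j => ?_) (fun j => ?_) hs
      · split_ifs
        · positivity
        · exact le_rfl
      · split_ifs
        · exact le_rfl
        · positivity
    rw [Finset.sum_filter]
    refine hs'.sum_le_tsum F (fun a _ => ?_)
    split_ifs
    · positivity
    · exact le_rfl
  refine h1.trans (le_of_eq ?_)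
  rw [wz_sq]
  have h2 : HasSum ((fun a : Ix J => if gr g a = n then z a t ^ 2 else 0) ∘ Sum.inl)
      (z (Sum.inl n) t ^ 2) := by
    have h3 := hasSum_single (f := (fun a : Ix J => if gr g a = n then z a t ^ 2 else 0) ∘ Sum.inl)
      n (fun m hm => if_neg (fun h => hm h))
    simpa [gr] using h3
  have h3 : HasSum ((fun a : Ix J => if gr g a = n then z a t ^ 2 else 0) ∘ Sum.inr)
      (∑' j : J, if g j = n then z (Sum.inr j) t ^ 2 else 0) := by
    exact (summ_ite g z t hs n).hasSum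
  exact (h2.sum h3).tsum_eq

/-- the bound of the weighted norm from a bound of the tail energies -/
theorem nk_le {lam Λ M : ℝ} {L C ℓ : ℕ → ℝ} {B : ℕ → ℕ → ℝ} (hS : Sq lam Λ M L C ℓ B)
    (hs : Summable fun a => z a t ^ 2) (h1 : ∑' a, z a t ^ 2 ≤ 1) (n₀ : ℕ) (K₀ : ℝ)
    (hY : ∀ k : ℕ, √(Yt (fun n => z (Sum.inl n)) (wz g z) (n₀ + k) t) ≤
      K₀ * Real.exp (-(lam / 100 * k))) :
    nk (rI L g) 1 (fun a => z a t) ≤ ∑ n ∈ Finset.range n₀, L n ^ 2 + 2 * (L n₀ ^ 2 * K₀ ^ 2) := by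
  classical
  set e : ℕ → ℝ := fun n => z (Sum.inl n) t ^ 2 + wz g z n t ^ 2 with he
  have hes : Summable e := summ_groups g z t hs
  have he0 : ∀ n, 0 ≤ e n := fun n => by positivity
  have hY0 : ∀ m, 0 ≤ Yt (fun n => z (Sum.inl n)) (wz g z) m t := fun m =>
    tsum_nonneg fun k => by positivity
  have heY : ∀ m, e m ≤ Yt (fun n => z (Sum.inl n)) (wz g z) m t := by
    intro m
    have h2 : Summable fun k => e (m + k) := hes.comp_injective (add_right_injective m)
    have h3 := h2.le_tsum 0 (fun k _ => he0 _)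
    simpa [Yt] using h3
  have hlam : (10 : ℝ) ^ 30 ≤ lam := hS.lam_big
  have hlam0 : (0 : ℝ) < lam := lt_of_lt_of_le (by norm_num) hlam
  -- each group has norm at most one
  have he1 : ∀ n, e n ≤ 1 := by
    intro n
    have hi : Summable fun a : Ix J => if gr g a = n then z a t ^ 2 else 0 := by
      refine Summable.of_nonneg_of_le (fun j => ?_) (fun j => ?_) hs
      · split_ifs
        · positivity
        · exact le_rfl
      · split_ifs
        · exact le_rfl
        · positivity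
    have h2 : HasSum ((fun a : Ix J => if gr g a = n then z a t ^ 2 else 0) ∘ Sum.inl)
        (z (Sum.inl n) t ^ 2) := by
      have h3 := hasSum_single
        (f := (fun a : Ix J => if gr g a = n then z a t ^ 2 else 0) ∘ Sum.inl)
        n (fun m hm => if_neg (fun h => hm h))
      simpa [gr] using h3
    have h3 : HasSum ((fun a : Ix J => if gr g a = n then z a t ^ 2 else 0) ∘ Sum.inr)
        (∑' j : J, if g j = n then z (Sum.inr j) t ^ 2 else 0) :=
      (summ_ite g z t hs n).hasSum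
    have h4 : e n = ∑' a : Ix J, if gr g a = n then z a t ^ 2 else 0 := by
      rw [he]
      simp only [wz_sq]
      exact (h2.sum h3).tsum_eq.symm
    rw [h4]
    refine le_trans (hi.tsum_le_tsum (fun a => ?_) hs) h1
    split_ifs
    · exact le_rfl
    · positivity
  -- the geometric series
  have hq : lam ^ 2 * Real.exp (-(lam / 50)) ≤ 1 / 2 := by
    have h2 := Real.pow_div_factorial_le_exp (lam / 50) (by positivity) 3
    have h3 : (lam / 50) ^ 3 / (Nat.factorial 3 : ℝ) = lam ^ 3 / 750000 := by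
      simp [Nat.factorial]
      ring
    rw [h3] at h2
    rw [Real.exp_neg, ← div_eq_mul_inv, div_le_iff₀ (Real.exp_pos _)]
    have h4 : 2 * lam ^ 2 ≤ lam ^ 3 / 750000 := by
      have h5 : (1500000 : ℝ) ≤ lam := le_trans (by norm_num) hlam
      have h6 : 0 ≤ lam ^ 2 := by positivity
      nlinarith
    linarith
  set q : ℝ := lam ^ 2 * Real.exp (-(lam / 50)) with hqd
  have hq0 : 0 ≤ q := by positivity
  have hgrp : ∀ k : ℕ, L (n₀ + k) ^ 2 * e (n₀ + k) ≤ L n₀ ^ 2 * K₀ ^ 2 * (1 / 2) ^ k := by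
    intro k
    have h2 := hY k
    have h3 := Real.sqrt_nonneg (Yt (fun n => z (Sum.inl n)) (wz g z) (n₀ + k) t)
    have h4 : Yt (fun n => z (Sum.inl n)) (wz g z) (n₀ + k) t ≤
        (K₀ * Real.exp (-(lam / 100 * k))) ^ 2 := by
      rw [← Real.sq_sqrt (hY0 (n₀ + k))]
      exact pow_le_pow_left₀ h3 h2 2
    have h5 : (K₀ * Real.exp (-(lam / 100 * k))) ^ 2 = K₀ ^ 2 * Real.exp (-(lam / 50)) ^ k := by
      rw [mul_pow, ← Real.exp_nat_mul, ← Real.exp_nat_mul]
      congr 2
      push_cast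
      ring
    rw [L_add hS]
    have h6 : e (n₀ + k) ≤ K₀ ^ 2 * Real.exp (-(lam / 50)) ^ k := by
      rw [← h5]
      exact (heY _).trans h4
    calc (L n₀ * lam ^ k) ^ 2 * e (n₀ + k)
        ≤ (L n₀ * lam ^ k) ^ 2 * (K₀ ^ 2 * Real.exp (-(lam / 50)) ^ k) :=
          mul_le_mul_of_nonneg_left h6 (sq_nonneg _)
      _ = L n₀ ^ 2 * K₀ ^ 2 * q ^ k := by
          rw [hqd, mul_pow (lam ^ 2)]
          ring
      _ ≤ L n₀ ^ 2 * K₀ ^ 2 * (1 / 2) ^ k := by
          apply mul_le_mul_of_nonneg_left _ (by positivity)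
          exact pow_le_pow_left₀ hq0 hq k
  have hgeo : ∀ N : ℕ, ∑ k ∈ Finset.range N, (1 / 2 : ℝ) ^ k ≤ 2 := by
    intro N
    have := Summable.sum_le_tsum (f := fun k : ℕ => (1 / 2 : ℝ) ^ k) (Finset.range N)
      (fun k _ => by positivity) summable_geometric_two
    rwa [tsum_geometric_two] at this
  -- the finite sums
  unfold nk
  apply Real.tsum_le_of_sum_le (fun a => sq_nonneg _)
  intro F
  obtain ⟨N, hN⟩ : ∃ N : ℕ, ∀ a ∈ F, gr g a < n₀ + N := by
    refine ⟨F.sup (gr g) + 1, fun a ha => ?_⟩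
    have := Finset.le_sup (f := gr g) ha
    omega
  have hmaps : ∀ a ∈ F, gr g a ∈ Finset.range (n₀ + N) := fun a ha => Finset.mem_range.2 (hN a ha)
  rw [← Finset.sum_fiberwise_of_maps_to hmaps]
  have h7 : ∀ n ∈ Finset.range (n₀ + N),
      ∑ a ∈ F.filter (fun a => gr g a = n), (rI L g a ^ 1 * z a t) ^ 2 ≤ L n ^ 2 * e n := by
    intro n _
    calc ∑ a ∈ F.filter (fun a => gr g a = n), (rI L g a ^ 1 * z a t) ^ 2
        = L n ^ 2 * ∑ a ∈ F.filter (fun a => gr g a = n), z a t ^ 2 := by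
          rw [Finset.mul_sum]
          refine Finset.sum_congr rfl (fun a ha => ?_)
          have h8 : rI L g a = L n := by
            unfold rI
            rw [(Finset.mem_filter.1 ha).2]
          rw [h8, pow_one, mul_pow]
      _ ≤ L n ^ 2 * e n :=
          mul_le_mul_of_nonneg_left (group_le g z t hs F n) (sq_nonneg _)
  refine (Finset.sum_le_sum h7).trans ?_
  rw [Finset.sum_range_add]
  apply add_le_add
  · refine Finset.sum_le_sum (fun n _ => ?_)
    have := he1 n
    nlinarith [sq_nonneg (L n)]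
  · calc ∑ k ∈ Finset.range N, L (n₀ + k) ^ 2 * e (n₀ + k)
        ≤ ∑ k ∈ Finset.range N, L n₀ ^ 2 * K₀ ^ 2 * (1 / 2) ^ k :=
          Finset.sum_le_sum (fun k _ => hgrp k)
      _ = L n₀ ^ 2 * K₀ ^ 2 * ∑ k ∈ Finset.range N, (1 / 2 : ℝ) ^ k := by rw [Finset.mul_sum]
      _ ≤ L n₀ ^ 2 * K₀ ^ 2 * 2 := mul_le_mul_of_nonneg_left (hgeo N) (by positivity)
      _ = 2 * (L n₀ ^ 2 * K₀ ^ 2) := by ring

end groups

theorem t_BLOWA2 : S_BLOWA2 := by
  intro hABS hEST hPERT hODE J g lam Λ M L C ℓ B c hK hS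
  obtain ⟨T₁, hode⟩ := hODE lam Λ M L C ℓ B hS
  have hadm := hEST J g lam Λ M L C ℓ B c hK hS
  obtain ⟨huniq, hex⟩ := hABS (Ix J) (dE ℓ L (Real.exp lam) g) (rI L g) c hadm
  obtain ⟨z, hz0, hz⟩ := hex (dat J) (dat_Sk _)
  have hinit : Init z := init_of hz0
  have hcons : ∀ T : ℝ, 0 < T → ASol2 (dE ℓ L (Real.exp lam) g) (rI L g) c T z →
      Rapid (rI L g) T z →
      T ≤ T₁ ∧ (Grow lam T (fun n => z (Sum.inl n)) (wz g z) ∨
      ∃ (n₀ : ℕ) (K₀ : ℝ), ∃ s ∈ Ico 0 T, ∀ t ∈ Ico s T, ∀ k : ℕ,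
        √(Yt (fun n => z (Sum.inl n)) (wz g z) (n₀ + k) t) ≤
          K₀ * Real.exp (-(lam / 100 * k))) := by
    intro T hT hsol hrap
    obtain ⟨-, -, f, hf⟩ := hPERT J g lam Λ M L C ℓ B c hK hS T z hsol hrap hinit
    exact hode T _ _ f hT hf
  rcases hz with hz | ⟨T, hT, hsol, hrap, hnb⟩
  · exfalso
    have := (hcons (|T₁| + 1) (by positivity) (hz _).1 (hz _).2).1
    have := le_abs_self T₁
    linarith
  · obtain ⟨p1, p2, -⟩ := hPERT J g lam Λ M L C ℓ B c hK hS T z hsol hrap hinit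
    refine ⟨T, z, hT, hsol, hinit, hrap, ?_, p1, p2, ?_⟩
    · -- uniqueness and maximality
      intro T' z' hT' hsol' hinit'
      rcases le_or_gt T' T with h | h
      · exact ⟨h, huniq T' z' z hsol' (ASol2.mono hsol h) (init_eq hinit' hinit)⟩
      · exfalso
        have heq := huniq T z' z (ASol2.mono hsol' h.le) hsol (init_eq hinit' hinit)
        obtain ⟨Mb, hMb⟩ := hsol'.bdd T h
        refine hnb ⟨Mb, fun t ht => ?_⟩
        have h1 : (fun a => z a t) = fun a => z' a t := by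
          funext a
          exact (heq a t ht).symm
        rw [h1]
        exact (hMb t (Ico_subset_Icc_self ht)).2
    · rcases (hcons T hT hsol hrap).2 with h | ⟨n₀, K₀, s, hs, hn₀⟩
      · exact h
      · exfalso
        apply hnb
        obtain ⟨M1, hM1⟩ := hsol.bdd s hs.2
        refine ⟨max M1 (∑ n ∈ Finset.range n₀, L n ^ 2 + 2 * (L n₀ ^ 2 * K₀ ^ 2)),
          fun t ht => ?_⟩
        rcases le_or_gt t s with hts | hts
        · exact (hM1 t ⟨ht.1, hts⟩).2.trans (le_max_left _ _)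
        · exact (nk_le g z t hS (p1 t ht).1 (p1 t ht).2 n₀ K₀
            (hn₀ t ⟨hts.le, ht.2⟩)).trans (le_max_right _ _)

end Pool.Agent.Y5.E.Bl
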