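import Pool.Agent.Y5.D.Stm

/-!
Definitions for the Navier-Stokes equations with additional linear dissipation of finite order
(geometric scales `K (n+1) = Λ * K n`, the constant `lam = L (n+1) / L n` is huge).
-/

open Set Filter Topology MeasureTheory

set_option autoImplicit false

namespace Pool.Agent.Y5.E

open Pool.Agent.Y5.D

/-! ### Abstract quadratic systems in weighted `ℓ²` -/

/-- the bilinear term -/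
noncomputable def bl {I : Type} (c : I → I → I → ℝ) (z y : I → ℝ) (i : I) : ℝ :=
  ∑' p : I × I, c i p.1 p.2 * z p.1 * y p.2

/-- weighted norms (squared) -/
noncomputable def nk {I : Type} (r : I → ℝ) (k : ℕ) (z : I → ℝ) : ℝ :=
  ∑' i, (r i ^ k * z i) ^ 2

def Sk {I : Type} (r : I → ℝ) (k : ℕ) (z : I → ℝ) : Prop :=
  Summable fun i => (r i ^ k * z i) ^ 2

/-- Regular solutions of `z i' = - d i * z i + ∑ c i a b * z a * z b` on `[0, T)`: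
bounded in the weighted `ℓ²`-space with the weight `r` on `[0, T']` for `T' < T`. -/
structure ASol2 {I : Type} (d r : I → ℝ) (c : I → I → I → ℝ) (T : ℝ) (z : I → ℝ → ℝ) : Prop where
  deriv : ∀ i, ∀ t ∈ Ico 0 T,
    HasDerivWithinAt (z i) (-(d i * z i t) + bl c (fun a => z a t) (fun a => z a t) i) (Ico 0 T) t
  bdd : ∀ T' < T, ∃ M, ∀ t ∈ Icc 0 T', Sk r 1 (fun a => z a t) ∧ nk r 1 (fun a => z a t) ≤ M

/-- all weighted norms are bounded, locally uniformly in time -/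
def Rapid {I : Type} (r : I → ℝ) (T : ℝ) (z : I → ℝ → ℝ) : Prop :=
  ∀ k : ℕ, ∀ T' < T, ∃ M, ∀ t ∈ Icc 0 T', Sk r k (fun a => z a t) ∧ nk r k (fun a => z a t) ≤ M

/-- Hypotheses for the well-posedness of abstract quadratic systems with damping. -/
structure Adm {I : Type} (d r : I → ℝ) (c : I → I → I → ℝ) : Prop where
  d0 : ∀ i, 0 ≤ d i
  r1 : ∀ i, 1 ≤ r i
  rfin : ∀ R, {i | r i ≤ R}.Finite
  summ : ∀ i (z y : I → ℝ), Sk r 1 z → Sk r 1 y →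
    Summable (fun p : I × I => c i p.1 p.2 * z p.1 * y p.2)
  loc : ∀ i, ∃ Ci, ∀ z y : I → ℝ, Sk r 1 z → Sk r 1 y →
    |bl c z y i| ≤ Ci * √(∑' a, z a ^ 2) * √(∑' a, y a ^ 2)
  est : ∀ k : ℕ, ∃ Ck, ∀ z y : I → ℝ, Sk r (k + 1) z → Sk r (k + 1) y →
    Summable (fun i => (r i ^ (k + 1) * bl c z y i) ^ 2 / (1 + d i)) ∧
    ∑' i, (r i ^ (k + 1) * bl c z y i) ^ 2 / (1 + d i) ≤
      Ck * (nk r (k + 1) z * nk r 1 y + nk r 1 z * nk r (k + 1) y)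

/-! ### Kernels -/

/-- damping rates: `ℓ n` for the main modes, `S * L n` for the other modes of the group `n` -/
noncomputable def dE {J : Type} (ℓ L : ℕ → ℝ) (S : ℝ) (g : J → ℕ) : Ix J → ℝ
  | Sum.inl n => ℓ n
  | Sum.inr j => S * L (g j)

/-- the trilinear form -/
noncomputable def tl {I : Type} (c : I → I → I → ℝ) (α β γ : I → ℝ) : ℝ :=
  ∑' t : I × I × I, c t.1 t.2.1 t.2.2 * α t.1 * β t.2.1 * γ t.2.2

/-- bound for the interaction of the groups `m` (output), `p` (advecting), `q` (advected) -/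
noncomputable def om (Λ M : ℝ) (L : ℕ → ℝ) (m p q : ℕ) : ℝ :=
  if p ≤ min m q then M * L p * Λ ^ (min m q - p) else M * L (min m q)

/-- Interaction kernels (geometric scales). -/
structure Ker {J : Type} (g : J → ℕ) (Λ M : ℝ) (L C : ℕ → ℝ) (B : ℕ → ℕ → ℝ)
    (c : Ix J → Ix J → Ix J → ℝ) : Prop where
  fin : ∀ m, {j | g j = m}.Finite
  card : ∃ D : ℝ, ∀ m, ({j | g j = m}.ncard : ℝ) ≤ D * L m ^ 2
  anti : ∀ j a b, c j a b = -c b a j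
  near : ∀ j a b, c j a b ≠ 0 → gr g j ≤ max (gr g a) (gr g b) + 1 ∧
    gr g a ≤ max (gr g j) (gr g b) + 1 ∧ gr g b ≤ max (gr g j) (gr g a) + 1
  sep : ∀ m a b, c (Sum.inl m) a b ≠ 0 → gr g a < m → gr g b < m →
    m ≤ gr g a + 2 ∧ m ≤ gr g b + 2
  tri : ∀ (m p q : ℕ) (α β γ : Ix J → ℝ), (∀ i, gr g i ≠ m → α i = 0) →
    (∀ i, gr g i ≠ p → β i = 0) → (∀ i, gr g i ≠ q → γ i = 0) →
    |tl c α β γ| ≤ om Λ M L m p q * √(∑' i, α i ^ 2) * √(∑' i, β i ^ 2) * √(∑' i, γ i ^ 2)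
  tab : ∀ i j n, c (Sum.inl n) (Sum.inl i) (Sum.inl j) =
    (if i = n ∧ j < n then L j * B j n else 0)
    + (if i = j ∧ n < i then -(L n * B n i) else 0)
    + (if i = j ∧ n = i + 1 then L i * C i else 0)
    + (if i = n ∧ j = n + 1 then -(L n * C n) else 0)

/-- Conditions on the parameters. -/
structure Sq (lam Λ M : ℝ) (L C ℓ : ℕ → ℝ) (B : ℕ → ℕ → ℝ) : Prop where
  lam_big : 10 ^ 30 ≤ lam
  L0 : 1 ≤ L 0
  L_succ : ∀ n, L (n + 1) = lam * L n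
  Λ_ge : 2 ≤ Λ
  Λ_sq : Λ ^ 2 ≤ lam
  M_one : 1 ≤ M
  exp_big : (10 ^ 6 * M ^ 4) ^ 10 ≤ Real.exp (lam / 10 ^ 6)
  C_lo : ∀ n, Real.exp (-(301 / 10000 * lam)) ≤ C n
  C_hi : ∀ n, C n ≤ Real.exp (-(299 / 10000 * lam))
  B_lo : ∀ i n, i < n → 999 / 1000 ≤ B i n
  B_hi : ∀ i n, i < n → B i n ≤ 1001 / 1000
  ℓ_nonneg : ∀ n, 0 ≤ ℓ n
  ℓ_zero : 10 ^ 6 * (ℓ 0 * lam) ≤ L 0
  ℓ_succ : ∀ n, 10 ^ 6 * ℓ (n + 1) ≤ L n * (9 / 1000) ^ n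
  ℓ_low : ∃ a, 0 < a ∧ ∀ n, a * Λ ^ (2 * n) ≤ ℓ n

/-! ### The system of the main modes `x n` and the norms `w n` of the other modes -/

/-- norm of the other modes of the group `n` -/
noncomputable def wz {J : Type} (g : J → ℕ) (z : Ix J → ℝ → ℝ) (n : ℕ) (t : ℝ) : ℝ :=
  √(∑' j : J, if g j = n then z (Sum.inr j) t ^ 2 else 0)

noncomputable def Yt (x w : ℕ → ℝ → ℝ) (m : ℕ) (t : ℝ) : ℝ :=
  ∑' k, (x (m + k) t ^ 2 + w (m + k) t ^ 2)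

noncomputable def Wt (w : ℕ → ℝ → ℝ) (m : ℕ) (t : ℝ) : ℝ := ∑' k, w (m + k) t ^ 2

noncomputable def At (lam : ℝ) (x w : ℕ → ℝ → ℝ) (m : ℕ) (t : ℝ) : ℝ :=
  ∑ p ∈ Finset.range m, (√lam)⁻¹ ^ (m - 1 - p) * (|x p t| + w p t)

noncomputable def Aw (lam : ℝ) (w : ℕ → ℝ → ℝ) (m : ℕ) (t : ℝ) : ℝ :=
  ∑ p ∈ Finset.range m, (√lam)⁻¹ ^ (m - 1 - p) * w p t

noncomputable def Ut (L : ℕ → ℝ) (x : ℕ → ℝ → ℝ) (m : ℕ) (t : ℝ) : ℝ :=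
  ∑ p ∈ Finset.range m, L p * |x p t|

noncomputable def Uw (L : ℕ → ℝ) (w : ℕ → ℝ → ℝ) (m : ℕ) (t : ℝ) : ℝ :=
  ∑ p ∈ Finset.range m, L p * w p t

noncomputable def loc (L : ℕ → ℝ) (x w : ℕ → ℝ → ℝ) (m : ℕ) (t : ℝ) : ℝ :=
  if m = 0 then 0 else L (m - 1) *
    ((|x (m - 1) t| + w (m - 1) t + |x (m - 2) t| + w (m - 2) t) * (w (m - 1) t + w (m - 2) t))

/-- The reduced system. -/
structure Sys (lam N S : ℝ) (L C ℓ : ℕ → ℝ) (B : ℕ → ℕ → ℝ) (T : ℝ) (x w f : ℕ → ℝ → ℝ) :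
    Prop where
  dx : ∀ n, ∀ t ∈ Ico 0 T, HasDerivWithinAt (x n)
    (vf3 L C ℓ B (fun m => x m t) n + f n t) (Ico 0 T) t
  fb : ∀ n, ∀ t ∈ Ico 0 T, |f n t| ≤ N * (L n * (At lam x w n t + √(Yt x w n t)) * √(Wt w n t)
    + Uw L w n t * √(Yt x w n t) + L n * Aw lam w n t * √(Yt x w (n + 1) t) + loc L x w n t)
  w0 : ∀ n, ∀ t ∈ Ico 0 T, 0 ≤ w n t
  dw : ∀ n, ∀ t ∈ Ico 0 T, ∃ D, HasDerivWithinAt (fun τ => w n τ ^ 2) D (Ico 0 T) t ∧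
    D ≤ -(2 * S * L n * w n t ^ 2) + 2 * w n t * (N * (
      L n * (At lam x w n t + √(Yt x w n t)) * √(Yt x w n t)
      + (if n = 0 then 0 else L (n - 1) * At lam x w n t * (|x (n - 1) t| + w (n - 1) t))))
  dY0 : ∀ t ∈ Ico 0 T, ∃ D, HasDerivWithinAt (Yt x w 0) D (Ico 0 T) t ∧ D ≤ 0
  dY : ∀ n, ∀ t ∈ Ico 0 T, ∃ D, HasDerivWithinAt (Yt x w (n + 1)) D (Ico 0 T) t ∧
    D ≤ 2 * (C n * L n * x n t ^ 2 + N * loc L x w (n + 1) t) * √(Yt x w (n + 1) t)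
      + 2 * (10011 / 10000 * Ut L x (n + 1) t + N * Uw L w (n + 1) t) * Yt x w (n + 1) t
      + N / S * (L n * At lam x w (n + 1) t ^ 2 * (|x n t| + w n t) ^ 2)
  bdd : ∀ T' < T, ∃ M, ∀ t ∈ Icc 0 T', ∀ n, L n ^ 10 * (|x n t| + w n t) ≤ M
  en : ∀ t ∈ Ico 0 T, Yt x w 0 t ≤ 1
  x0 : x 0 0 = 1
  xs : ∀ n, x (n + 1) 0 = 0
  ws : ∀ n, w n 0 = 0

/-- The growth of the main modes: at suitable times the mode `n` is about `a ≥ (9/1000)^n`, and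
everything else is controlled. -/
def Grow (lam T : ℝ) (x w : ℕ → ℝ → ℝ) : Prop :=
  ∀ n, ∃ t ∈ Ico 0 T, ∃ a, (9 / 1000) ^ n ≤ a ∧ 99 / 100 * a ≤ x n t ∧
    (∀ i < n, |x i t| ≤ 200 * (1000 / 9) ^ (n - i) * a) ∧
    (∀ i ≤ n, w i t ≤ Real.exp (-(lam / 10)) * (1000 / 9) ^ (n - i) * a) ∧
    ∀ k : ℕ, √(Yt x w (n + 1 + k) t) ≤ Real.exp (-(lam / 100 * (k + 1))) * a

/-! ### The orthonormal system -/

/-- The orthonormal system `e`, in groups; `F n` bounds the frequencies of the group `n`. -/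
structure Conc2 {J : Type} (ν α lam : ℝ) (g : J → ℕ) (F L ℓ N G : ℕ → ℝ) (e : Ix J → Fam) :
    Prop where
  ot : ∀ a, OT (e a)
  fsupp : ∀ a k, e a k ≠ 0 → 1 ≤ ‖vec k‖ ∧ ‖vec k‖ ≤ F (gr g a)
  F_cmp : ∃ D : ℝ, 0 < D ∧ ∀ a k, e a k ≠ 0 → F (gr g a) ≤ D * ‖vec k‖
  F_L : ∃ D : ℝ, 0 < D ∧ ∀ n, F n ≤ D * L n
  L_F : ∃ D : ℝ, 0 < D ∧ ∀ n, L n ≤ D * F n ^ (5 / 2 : ℝ)
  disj : ∀ a b k, e a k ≠ 0 → e b k ≠ 0 → gr g a = gr g b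
  orth : ∀ a b, (a = b → pair (e a) (e b) = 1) ∧ (a ≠ b → pair (e a) (e b) = 0)
  compl : ∀ V, OT V → (∀ a, pair V (e a) = 0) → ∀ k, V k = 0
  low : ∀ n, 2 * (ν * ∑' k, (2 * Real.pi * ‖vec k‖) ^ (2 * α) * ‖e (Sum.inl n) k‖ ^ 2) ≤ ℓ n
  lowo : ∀ n, 2 * (ν * (2 * Real.pi * F n) ^ (2 * α)) ≤ Real.exp lam * L n
  G0 : ∀ n, 0 ≤ G n
  cnt : ∀ n, ({k | ∃ a, gr g a = n ∧ e a k ≠ 0}.ncard : ℝ) ≤ G n ^ 2
  N0 : 1 ≤ N 0
  N_grow : ∀ n, 10 ^ 9 * N n ≤ N (n + 1)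
  N_up : ∀ n, N (n + 1) ≤ lam * N n
  G_le : ∀ n, G n ≤ Real.exp (lam / 1000) * N n
  l1N : ∀ n, ∑' k, ‖e (Sum.inl n) k‖ ≤ N n
  pt : ∀ n, ∃ y : E3, N n / 1000 ≤
    ‖∑' k : Z3, Real.sin (2 * Real.pi * inner ℝ (vec k) y) • e (Sum.inl n) k‖

/-- Packets (trigonometric polynomials) `P n`: a main part with frequencies in `[K n, 13/10 K n]`
and a small part with frequencies near `± h n`, next to the main part of `P (n+1)`. -/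
structure Tab2 (K : ℕ → ℕ) (γ : ℕ → ℝ) (β D : ℝ) (p : ℕ) (h : ℕ → Z3) (P : ℕ → Fam)
    (C : ℕ → ℝ) (B : ℕ → ℕ → ℝ) : Prop where
  ot : ∀ n, OT (P n)
  supp : ∀ n k, P n k ≠ 0 → ((K n : ℝ) ≤ ‖vec k‖ ∧ ‖vec k‖ ≤ 13 / 10 * K n) ∨
    ‖vec (k - h n)‖ ≤ K n / 10 ∨ ‖vec (k + h n)‖ ≤ K n / 10
  hnorm : ∀ n, 104 / 100 * (K (n + 1) : ℝ) ≤ ‖vec (h n)‖ ∧ ‖vec (h n)‖ ≤ 12 / 10 * K (n + 1)
  hdist : ∀ n k, P (n + 1) k ≠ 0 → ‖vec k‖ ≤ 13 / 10 * K (n + 1) →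
    (K n : ℝ) * (4 / 10) ≤ ‖vec (k - h n)‖ ∧ (K n : ℝ) * (4 / 10) ≤ ‖vec (k + h n)‖
  norm1 : ∀ n, pair (P n) (P n) = 1
  hs : ∀ n (s : ℝ), 0 ≤ s → s ≤ 5 / 2 → ∑' k, ‖vec k‖ ^ s * ‖P n k‖ ^ 2 ≤ 4 * (K n : ℝ) ^ s
  l1 : ∀ n, ∑' k, ‖P n k‖ ≤ D * (K n * √(K n))
  pt : ∀ n, ∃ y : E3, D * (K n * √(K n)) / 1000 ≤
    ‖∑' k : Z3, Real.sin (2 * Real.pi * inner ℝ (vec k) y) • P n k‖
  B_lo : ∀ i n, i < n → 999 / 1000 ≤ B i n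
  B_hi : ∀ i n, i < n → B i n ≤ 1001 / 1000
  C_lo : ∀ n, γ n ≤ C n * ((K (n + 1) : ℝ) / K n) ^ p
  C_hi : ∀ n, C n ≤ γ n * ((K (n + 1) : ℝ) / K n) ^ p
  tab : ∀ i j n, bil (P i) (P j) (P n) =
    (if i = n ∧ j < n then β * (K j ^ 2 * √(K j)) * B j n else 0)
    + (if i = j ∧ n < i then -(β * (K n ^ 2 * √(K n)) * B n i) else 0)
    + (if i = j ∧ n = i + 1 then β * (K i ^ 2 * √(K i)) * C i else 0)
    + (if i = n ∧ j = n + 1 then -(β * (K n ^ 2 * √(K n)) * C n) else 0)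

/-! ### Fields -/

/-- trigonometric polynomials -/
def TP (v : E3 → E3) : Prop := ∃ V : Fam, OT V ∧ (∃ R, ∀ k, V k ≠ 0 → ‖vec k‖ ≤ R) ∧ v = fieldOf V

/-- coefficients of the sine series of `v` -/
noncomputable def cf (v : E3 → E3) (k : Z3) : E3 :=
  ∫ y in cube, Real.sin (2 * Real.pi * inner ℝ (vec k) y) • v y

/-- `⟨(-Δ)^s v, v⟩` -/
noncomputable def sob (s : ℝ) (v : E3 → E3) : ℝ :=
  ∑' k : Z3, (2 * Real.pi * ‖vec k‖) ^ (2 * s) * ‖cf v k‖ ^ 2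

/-- The linear dissipation `L = ∑ lam i ⟨·, e i⟩ e i`: a complete orthonormal system of
eigenfields `e i` (trigonometric polynomials) with eigenvalues `lam i ≥ 0` such that
`ν (-Δ)^α ≤ L ≤ C (-Δ)^(5/4)` as quadratic forms, and `L` is of order at most `5/2`. -/
structure Diss3 {ι : Type} (ν α : ℝ) (e : ι → E3 → E3) (lam : ι → ℝ) : Prop where
  field : ∀ i, TP (e i)
  nonneg : ∀ i, 0 ≤ lam i
  orth : ∀ i j, (i = j → ip (e i) (e j) = 1) ∧ (i ≠ j → ip (e i) (e j) = 0)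
  compl : ∀ v, PF v → (∀ i, ip v (e i) = 0) → ∀ y, v y = 0
  low : ∀ v, PF v → Summable (fun i => lam i * ip v (e i) ^ 2) ∧
    ν * sob α v ≤ ∑' i, lam i * ip v (e i) ^ 2
  up : ∃ Cu : ℝ, ∀ v, PF v → ∑' i, lam i * ip v (e i) ^ 2 ≤ Cu * sob (5 / 4) v
  ord : ∀ m : ℕ, ∃ Cm : ℝ, ∀ v, PF v → ∃ w, PF w ∧ (∀ i, ip w (e i) = lam i * ip v (e i)) ∧
    sob m w ≤ Cm * sob (m + 5 / 2) v

end Pool.Agent.Y5.E
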