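import Pool.Agent.Y37.NE.ABS2
import Pool.Agent.Y290.NE.EST2
import Pool.Agent.Y704.NE.PERT2
import Pool.Agent.Y434.NE.SEQ2
import Pool.Agent.Y421.NE.ONB2
import Pool.Agent.Y274.NE.PHYS2
import Pool.Agent.Y5.E.Blow
import Pool.Agent.Y710.NE.IND
import Pool.Agent.Y748.NE.BAR1
import Pool.Agent.Y141.NE.BAR2
import Pool.Agent.Y155.NE.TAB2
import Pool.Agent.Y5.E.Q10

set_option autoImplicit false

namespace Pool.Agent.Y5.E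

theorem t_CURC : S_CURC :=
  t_CLOSE Pool.Agent.Y748.NE.t_BAR1 Pool.Agent.Y141.NE.t_BAR2 t_RAT

theorem t_ODE4 : S_ODE4 := t_IND t_CURC

theorem t_BLOW2 : S_BLOW2 :=
  Bl.t_BLOWA2 Pool.Agent.Y37.NE.t_ABS2 Pool.Agent.Y290.NE.t_EST2
    Pool.Agent.Y704.NE.t_PERT2 t_ODE4

theorem t_CONC2 : S_CONC2 :=
  Pool.Agent.Y421.NE.t_ONB2 Pool.Agent.Y155.NE.t_TAB2 Pool.Agent.Y434.NE.t_SEQ2

theorem t_MAIN3 : S_MAIN3 :=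
  Pool.Agent.Y274.NE.t_PHYS2 Pool.Agent.Y274.NE.t_FLD2 t_BLOW2 t_CONC2

end Pool.Agent.Y5.E
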