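import Pool.Agent.Y5.E.Q1

/-! Generic real-variable lemmas. -/

open Set Filter Topology MeasureTheory

set_option autoImplicit false

namespace Pool.Agent.Y5.E

open Pool.Agent.Y5.D (vf3)

/-- induction on a half-open interval -/
lemma real_ind {P : ℝ → Prop} {a b : ℝ} (h0 : P a)
    (hop : ∀ t ∈ Ico a b, P t → ∀ᶠ τ in 𝓝[Ico a b] t, P τ)
    (hcl : ∀ t ∈ Ioo a b, (∀ τ ∈ Ico a t, P τ) → P t) : ∀ t ∈ Ico a b, P t := by
  by_contra hcon
  push Not at hcon
  obtain ⟨t0, ht0, hnt0⟩ := hcon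
  set S := {t | t ∈ Ico a b ∧ ¬ P t} with hS
  have hSne : S.Nonempty := ⟨t0, ht0, hnt0⟩
  have hSb : BddBelow S := ⟨a, fun t ht => ht.1.1⟩
  set s := sInf S with hs
  have has : a ≤ s := le_csInf hSne fun t ht => ht.1.1
  have hsb : s < b := (csInf_le hSb ⟨ht0, hnt0⟩).trans_lt ht0.2
  have hbelow : ∀ τ ∈ Ico a s, P τ := fun τ hτ => by
    by_contra hn
    have : s ≤ τ := csInf_le hSb ⟨⟨hτ.1, hτ.2.trans hsb⟩, hn⟩
    linarith [hτ.2]
  have hPs : P s := by
    rcases has.eq_or_lt with h | h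
    · rw [← h]; exact h0
    · exact hcl s ⟨h, hsb⟩ hbelow
  have hev := hop s ⟨has, hsb⟩ hPs
  rw [eventually_nhdsWithin_iff, Metric.eventually_nhds_iff] at hev
  obtain ⟨r, hr, hball⟩ := hev
  have hge : ∀ t ∈ S, s + r ≤ t := fun t ht => by
    by_contra hlt
    push Not at hlt
    have h3 : s ≤ t := csInf_le hSb ht
    exact ht.2 (hball (by rw [Real.dist_eq, abs_of_nonneg (by linarith)]; linarith) ht.1)
  have : s + r ≤ s := le_csInf hSne hge
  linarith

/-- A function which decreases whenever it is above `K` stays below `K`. -/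
lemma stay_le {φ φ' : ℝ → ℝ} {a b K : ℝ} (hab : a ≤ b) (hc : ContinuousOn φ (Icc a b))
    (hd : ∀ t ∈ Ioo a b, HasDerivAt φ (φ' t) t) (h : ∀ t ∈ Ioo a b, K < φ t → φ' t ≤ 0)
    (h0 : φ a ≤ K) : φ b ≤ K := by
  by_contra hcon
  push Not at hcon
  set S := {t | t ∈ Icc a b ∧ φ t ≤ K} with hS
  have hclosed : IsClosed S := by
    have : S = Icc a b ∩ φ ⁻¹' Iic K := by ext; simp [hS]
    rw [this]
    exact hc.preimage_isClosed_of_isClosed isClosed_Icc isClosed_Iic
  have hSne : S.Nonempty := ⟨a, ⟨le_rfl, hab⟩, h0⟩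
  have hSb : BddAbove S := ⟨b, fun t ht => ht.1.2⟩
  have hmem : sSup S ∈ S := hclosed.csSup_mem hSne hSb
  set s := sSup S with hs
  have hsb : s < b := by
    rcases hmem.1.2.eq_or_lt with h1 | h1
    · exfalso; have := hmem.2; rw [h1] at this; linarith
    · exact h1
  have hpos : ∀ t ∈ Ioc s b, K < φ t := fun t ht => by
    by_contra hn
    push Not at hn
    have : t ≤ s := le_csSup hSb ⟨⟨hmem.1.1.trans ht.1.le, ht.2⟩, hn⟩
    linarith [ht.1]
  have hm := mono_of (f := fun t => -(φ t)) (f' := fun t => -(φ' t)) hsb.le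
    ((hc.mono (Icc_subset_Icc_left hmem.1.1)).neg)
    (fun t ht => (hd t ⟨hmem.1.1.trans_lt ht.1, ht.2⟩).fun_neg)
    (fun t ht => by
      have := h t ⟨hmem.1.1.trans_lt ht.1, ht.2⟩ (hpos t ⟨ht.1, ht.2.le⟩)
      linarith)
  have h1 : -(φ s) ≤ -(φ b) := hm
  have h2 := hmem.2
  linarith

/-- Barrier lemma: `β = K * exp th`, `φ' ≤ φ * th'` whenever `φ > β`. -/
lemma bar {φ φ' th th' : ℝ → ℝ} {a b K : ℝ} (hab : a ≤ b) (hK : 0 < K)
    (hc : ContinuousOn φ (Icc a b)) (hth : ContinuousOn th (Icc a b))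
    (hd : ∀ t ∈ Ioo a b, HasDerivAt φ (φ' t) t)
    (hthd : ∀ t ∈ Ioo a b, HasDerivAt th (th' t) t)
    (h : ∀ t ∈ Ioo a b, K * Real.exp (th t) < φ t → φ' t ≤ φ t * th' t)
    (h0 : φ a ≤ K * Real.exp (th a)) : φ b ≤ K * Real.exp (th b) := by
  have key := stay_le (φ := fun t => φ t * Real.exp (-(th t)))
    (φ' := fun t => φ' t * Real.exp (-(th t)) + φ t * (Real.exp (-(th t)) * (-(th' t)))) (K := K)
    hab (hc.mul hth.neg.rexp)
    (fun t ht => (hd t ht).mul ((hthd t ht).fun_neg.exp))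
    (fun t ht hlt => by
      have h1 : K * Real.exp (th t) < φ t := by
        have h2 : K * Real.exp (th t) < φ t * Real.exp (-(th t)) * Real.exp (th t) := by
          have := Real.exp_pos (th t)
          gcongr
        rwa [mul_assoc, ← Real.exp_add, neg_add_cancel, Real.exp_zero, mul_one] at h2
      have h3 := h t ht h1
      have h4 := Real.exp_pos (-(th t))
      nlinarith)
    (by
      have h1 := Real.exp_pos (-(th a))
      calc φ a * Real.exp (-(th a)) ≤ K * Real.exp (th a) * Real.exp (-(th a)) := by gcongr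
        _ = K := by rw [mul_assoc, ← Real.exp_add, add_neg_cancel, Real.exp_zero, mul_one])
  have h1 : φ b * Real.exp (-(th b)) ≤ K := key
  calc φ b = φ b * Real.exp (-(th b)) * Real.exp (th b) := by
        rw [mul_assoc, ← Real.exp_add, neg_add_cancel, Real.exp_zero, mul_one]
    _ ≤ _ := by gcongr

/-- Gronwall for square roots with an additional term. -/
lemma sqrt_gronA {Y D : ℝ → ℝ} {a b q c η : ℝ} (hab : a ≤ b) (hq : 0 ≤ q) (hcn : 0 ≤ c)
    (hη : 0 ≤ η)
    (hc : ContinuousOn Y (Icc a b)) (hY : ∀ t ∈ Icc a b, 0 ≤ Y t)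
    (hd : ∀ t ∈ Ioo a b, HasDerivAt Y (D t) t)
    (h : ∀ t ∈ Ioo a b, D t ≤ 2 * c * √(Y t) + 2 * q * Y t + 2 * c * η) :
    √(Y b) ≤ Real.exp (q * (b - a)) * (√(Y a) + η + 2 * c * (b - a)) := by
  have h1 := sqrt_gron (Y := fun t => Y t + η ^ 2) (D := D) (P := fun t => 2 * c * t)
    (P' := fun _ => 2 * c) (a := a) (b := b) (q := q) hab hq
    (hc.add continuousOn_const) (fun t ht => by have := hY t ht; positivity)
    (by fun_prop) (fun t _ => by simpa using (hasDerivAt_id t).const_mul (2 * c))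
    (fun _ _ => by positivity) (fun t ht => (hd t ht).add_const (η ^ 2))
    (fun t ht => by
      have hY0 := hY t ⟨ht.1.le, ht.2.le⟩
      have h2 := h t ht
      have h3 : √(Y t) ≤ √(Y t + η ^ 2) := Real.sqrt_le_sqrt (by nlinarith [sq_nonneg η])
      have h4 : η ≤ √(Y t + η ^ 2) := Real.le_sqrt_of_sq_le (by linarith)
      have h5 := mul_le_mul_of_nonneg_left h3 hcn
      have h6 := mul_le_mul_of_nonneg_left h4 hcn
      have h7 := mul_nonneg hq (sq_nonneg η)
      nlinarith)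
  have h2 : √(Y b) ≤ √(Y b + η ^ 2) := Real.sqrt_le_sqrt (by nlinarith [sq_nonneg η])
  have h3 : √(Y a + η ^ 2) ≤ √(Y a) + η := by
    apply Real.sqrt_le_iff.2
    have h4 := Real.sqrt_nonneg (Y a)
    have h5 := Real.sq_sqrt (hY a ⟨le_rfl, hab⟩)
    constructor
    · positivity
    · nlinarith [mul_nonneg h4 hη]
  refine h2.trans (h1.trans ?_)
  have h4 : 2 * c * b - 2 * c * a = 2 * c * (b - a) := by ring
  rw [h4]
  gcongr

lemma exp33 {y : ℝ} (hy : y ≤ 329 / 100) : Real.exp y ≤ 29 := by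
  have h1 : Real.exp y ≤ Real.exp (329 / 100) := Real.exp_le_exp.2 hy
  have h2 : Real.exp (329 / 100) = Real.exp 1 ^ 3 * Real.exp (29 / 100) := by
    rw [← Real.exp_nat_mul, ← Real.exp_add]; congr 1; norm_num
  have h3 := Real.exp_one_lt_d9
  have h4 : Real.exp 1 ^ 3 ≤ 2.7182818286 ^ 3 := by
    have := Real.exp_pos 1
    gcongr
  have h5 : Real.exp (29 / 100) ≤ 100 / 71 := by
    have h6 : 1 - 29 / 100 ≤ Real.exp (-(29 / 100)) := by
      have := Real.add_one_le_exp (-(29 / 100) : ℝ); linarith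
    have h7 : Real.exp (29 / 100) * Real.exp (-(29 / 100)) = 1 := by rw [← Real.exp_add]; simp
    have h8 := Real.exp_pos (29 / 100)
    nlinarith
  have h6 := Real.exp_pos (29 / 100)
  rw [h2] at h1
  refine h1.trans ?_
  calc Real.exp 1 ^ 3 * Real.exp (29 / 100) ≤ 2.7182818286 ^ 3 * (100 / 71) := by gcongr
    _ ≤ 29 := by norm_num

lemma exp_le1 {y : ℝ} (hy : y ≤ 1 / 1000) : Real.exp y ≤ 1002 / 1000 := by
  have h1 : Real.exp y ≤ Real.exp (1 / 1000) := Real.exp_le_exp.2 hy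
  have h2 : 1 - 1 / 1000 ≤ Real.exp (-(1 / 1000)) := by
    have := Real.add_one_le_exp (-(1 / 1000) : ℝ); linarith
  have h3 : Real.exp (1 / 1000) * Real.exp (-(1 / 1000)) = 1 := by rw [← Real.exp_add]; simp
  have h4 := Real.exp_pos (1 / 1000)
  nlinarith

end Pool.Agent.Y5.E
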