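import Pool.Agent.Y5.E.Q3

/-! A priori bounds of the lower modes. -/

open Set Filter Topology MeasureTheory

set_option autoImplicit false

namespace Pool.Agent.Y5.E

open Pool.Agent.Y5.D (vf3)

section seq

variable {lam N : ℝ} {L C ℓ : ℕ → ℝ} {B : ℕ → ℕ → ℝ}

/-- the damping beats everything -/
lemma S_dl1 (q : Pm lam N L C ℓ B) : 10 ^ 20 * N ≤ Real.exp lam * dl1 lam := by
  have h1 := q.N_le
  have h2 := q.EE_big
  have h3 := EE_pos lam
  have h4 := q.N_one
  have h5 : EE lam ^ 2 * Real.exp (0 * lam) ≤ Real.exp (3 / 5 * lam) :=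
    q.EE_exp 2 (by norm_num)
  have h6 : Real.exp lam * dl1 lam = Real.exp (3 / 5 * lam) := by
    rw [dl1, ← Real.exp_add]; congr 1; ring
  rw [h6]
  rw [zero_mul, Real.exp_zero, mul_one] at h5
  refine le_trans ?_ h5
  calc 10 ^ 20 * N ≤ EE lam * EE lam := by gcongr; linarith
    _ = _ := by ring

lemma N_S (q : Pm lam N L C ℓ B) : N / Real.exp lam ≤ N * dl1 lam := by
  rw [div_eq_mul_inv, ← Real.exp_neg]
  have := q.N_one
  have h : Real.exp (-lam) ≤ dl1 lam := by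
    apply Real.exp_le_exp.2
    have := q.lamp
    linarith
  gcongr

end seq

namespace Gd

variable {lam N : ℝ} {L C ℓ : ℕ → ℝ} {B : ℕ → ℕ → ℝ} {T : ℝ} {x w f : ℕ → ℝ → ℝ}
variable {n : ℕ} {σ a : ℕ → ℝ} {t1 : ℝ}

/-- the force of the other modes -/
noncomputable def wfc (lam N : ℝ) (L : ℕ → ℝ) (x w : ℕ → ℝ → ℝ) (n : ℕ) (t : ℝ) : ℝ :=
  N * (L n * (At lam x w n t + √(Yt x w n t)) * √(Yt x w n t)
      + (if n = 0 then 0 else L (n - 1) * At lam x w n t * (|x (n - 1) t| + w (n - 1) t)))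

/-- bound of the other modes by the damping -/
lemma wbar (g : Gd lam N L C ℓ B T x w f) (i : ℕ) {α t b : ℝ} (h0 : 0 ≤ α) (hαt : α ≤ t)
    (ht : t < T) (hb : 0 ≤ b)
    (hs : ∀ τ ∈ Ioo α t, wfc lam N L x w i τ ≤ Real.exp lam * L i * b)
    (h : w i α ≤ b) : w i t ≤ b := by
  have hsub : Icc α t ⊆ Ico 0 T := fun τ hτ => ⟨h0.trans hτ.1, hτ.2.trans_lt ht⟩
  have h1 := stay_le (φ := fun τ => w i τ ^ 2) (φ' := fun τ => deriv (fun τ => w i τ ^ 2) τ)
    (K := b ^ 2) hαt ((g.wsq_cont i).mono hsub)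
    (fun τ hτ => by
      obtain ⟨D, hD, _⟩ := g.sy.dw i τ (hsub ⟨hτ.1.le, hτ.2.le⟩)
      have h2 := hD.hasDerivAt (Ico_mem_nhds (h0.trans_lt hτ.1) (hτ.2.trans ht))
      rw [h2.deriv]; exact h2)
    (fun τ hτ hlt => by
      obtain ⟨D, hD, hDle⟩ := g.sy.dw i τ (hsub ⟨hτ.1.le, hτ.2.le⟩)
      have h2 := hD.hasDerivAt (Ico_mem_nhds (h0.trans_lt hτ.1) (hτ.2.trans ht))
      rw [h2.deriv]
      have hw := g.sy.w0 i τ (hsub ⟨hτ.1.le, hτ.2.le⟩)
      have hbw : b < w i τ := lt_of_pow_lt_pow_left₀ 2 hw hlt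
      have h3 := hs τ hτ
      unfold wfc at h3
      have hSL : 0 < Real.exp lam * L i := mul_pos (Real.exp_pos _) (g.q.Lp i)
      have h4 := mul_le_mul_of_nonneg_left h3 (by positivity : (0 : ℝ) ≤ 2 * w i τ)
      have h5 : 0 ≤ (Real.exp lam * L i) * w i τ * (w i τ - b) := by
        have : 0 ≤ w i τ - b := by linarith
        positivity
      nlinarith)
    (by
      have hw := g.sy.w0 i α (hsub ⟨le_rfl, hαt⟩)
      gcongr)
  have hw := g.sy.w0 i t (hsub ⟨hαt, le_rfl⟩)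
  exact le_of_pow_le_pow_left₀ (by norm_num) hb h1

/-- a priori bounds -/
lemma UB (g : Gd lam N L C ℓ B T x w f) (h : Stg lam L T x w n σ a) {t1 : ℝ} (hT : t1 ≤ T)
    (h1 : t1 ≤ σ n + 32 / 1000 * lam / (L n * a n)) : ∀ i ≤ n,
    (∀ t ∈ Ico (σ i) t1, Low lam L x w a i t ∧ √(Yt x w i t) ≤ 30 * a i ∧
      w i t ≤ 200 * dl1 lam * a i) ∧
    (i < n → ∀ t ∈ Ico (σ (i + 1)) t1, √(Yt x w i t) ≤ 101 * a (i + 1)) := by
  intro i
  induction i using Nat.strong_induction_on with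
  | _ i ih =>
  intro hi
  have q := g.q
  have hlmb := q.lam_big
  have hlm := q.lamp
  have hGi := g.Gpos h i hi
  have hai := apos h i hi
  have ha1 := g.ale h i hi
  have hd := dl1_pos lam
  have hds := dl1_small1 q
  have hNd := N_dl1 q
  have hN := q.N_one
  have hNS := N_S q
  set Gl := L i * a i / lam with hGl
  have hGlp : 0 < Gl := by positivity
  have hlow : ∀ t ∈ Ico (σ i) t1, Low lam L x w a i t := by
    intro t ht
    have htI : t ∈ Ico 0 T := ⟨(σnn h hi).trans ht.1, ht.2.trans_le hT⟩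
    refine g.low_of h hi htI (fun j hj => ?_) (fun j hj => ?_)
    · have h3 := (ih j hj (by omega)).2 (by omega) t
        ⟨(σmono h (by omega) hi).trans ht.1, ht.2⟩
      exact (g.x_le htI (le_refl j)).trans h3
    · exact ((ih j hj (by omega)).1 t ⟨(σmono h (by omega) hi).trans ht.1, ht.2⟩).2.2
  set c : ℝ := 1 / 10 ^ 10 * Gl * a i with hc
  have hc0 : 0 ≤ c := by positivity
  have hx : ∀ t ∈ Ico (σ i) t1, src L C x i t + N * loc L x w i t ≤ c := by
    intro t ht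
    have hl := (hlow t ht).lc
    have htI : t ∈ Ico 0 T := ⟨(σnn h hi).trans ht.1, ht.2.trans_le hT⟩
    have h2 : N * loc L x w i t ≤ 1 / 10 ^ 20 * (Gl * a i) := by
      calc N * loc L x w i t ≤ N * (10 ^ 11 * dl1 lam * Gl * a i) := by gcongr
        _ = (10 ^ 11 * N * dl1 lam) * (Gl * a i) := by ring
        _ ≤ 1 / 10 ^ 20 * (Gl * a i) := by
            gcongr
            refine le_trans ?_ hNd
            gcongr <;> norm_num
    have h3 : src L C x i t ≤ 1 / 10 ^ 15 * (Gl * a i) := by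
      unfold src
      split_ifs with h0
      · positivity
      · obtain ⟨m, rfl⟩ : ∃ m, i = m + 1 := ⟨i - 1, by omega⟩
        rw [Nat.add_sub_cancel]
        have h4 := (ih m (by omega) (by omega)).2 (by omega) t ht
        have h5 := (g.x_le htI (le_refl m)).trans h4
        have h6 : x m t ^ 2 ≤ (101 * a (m + 1)) ^ 2 := by
          rw [← sq_abs]; gcongr
        have h7 := q.Lp m
        have h8 := q.Cp m
        have h9 := q.C_small m
        have e : L m * a (m + 1) = Gl := by rw [hGl, q.L_succ m]; field_simp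
        calc L m * C m * x m t ^ 2 ≤ L m * (1 / 10 ^ 20) * (101 * a (m + 1)) ^ 2 := by gcongr
          _ = (101 ^ 2 / 10 ^ 20) * ((L m * a (m + 1)) * a (m + 1)) := by ring
          _ ≤ 1 / 10 ^ 15 * ((L m * a (m + 1)) * a (m + 1)) := by
              gcongr ?_ * _
              norm_num
          _ = _ := by rw [e]
    have h4 : 0 < Gl * a i := by positivity
    rw [hc]
    nlinarith
  have hadd : ∀ t ∈ Ico (σ i) t1, addt lam N L x w i t ≤ 2 * c * (1 / 10 ^ 6 * a i) := by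
    intro t ht
    have htI : t ∈ Ico 0 T := ⟨(σnn h hi).trans ht.1, ht.2.trans_le hT⟩
    have hL := hlow t ht
    unfold addt
    split_ifs with h0
    · positivity
    · obtain ⟨m, rfl⟩ : ∃ m, i = m + 1 := ⟨i - 1, by omega⟩
      have hz := hL.z h0
      rw [Nat.add_sub_cancel] at hz ⊢
      have hA := hL.A
      have hA0 := g.A_nonneg htI (m + 1)
      have hw0 := g.sy.w0 m t htI
      have h7 := q.Lp m
      have e : L m * a (m + 1) = Gl := by rw [hGl, q.L_succ m]; field_simp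
      calc N / Real.exp lam * (L m * At lam x w (m + 1) t ^ 2 * (|x m t| + w m t) ^ 2)
          ≤ N * dl1 lam * (L m * (103 * a (m + 1)) ^ 2 * (102 * a (m + 1)) ^ 2) := by gcongr
        _ = (103 ^ 2 * 102 ^ 2 * N * dl1 lam) * ((L m * a (m + 1)) * a (m + 1) ^ 2)
              * a (m + 1) := by ring
        _ ≤ (10 ^ 20 * N * dl1 lam) * ((L m * a (m + 1)) * a (m + 1) ^ 2) * 1 := by
            gcongr
            norm_num
        _ ≤ (1 / 10 ^ 20) * ((L m * a (m + 1)) * a (m + 1) ^ 2) * 1 := by gcongr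
        _ = (1 / 10 ^ 20) * (Gl * a (m + 1) ^ 2) := by rw [e]; ring
        _ ≤ (2 / 10 ^ 16) * (Gl * a (m + 1) ^ 2) := by gcongr ?_ * _; norm_num
        _ = _ := by rw [hc]; ring
  set r : ℝ := 1014 / 10 * Gl with hr
  have hr0 : 0 ≤ r := by positivity
  have hU : ∀ t ∈ Ico (σ i) t1, 10011 / 10000 * Ut L x i t + N * Uw L w i t ≤ r := by
    intro t ht
    have hL := hlow t ht
    have h1 := hL.U
    have h2 := hL.Uw
    have h3 : N * Uw L w i t ≤ 1 / 10 ^ 10 * Gl := by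
      calc N * Uw L w i t ≤ N * (10 ^ 5 * dl1 lam * Gl) := by gcongr
        _ = (10 ^ 5 * N * dl1 lam) * Gl := by ring
        _ ≤ (10 ^ 20 * N * dl1 lam) * Gl := by gcongr <;> norm_num
        _ ≤ (1 / 10 ^ 20) * Gl := by gcongr
        _ ≤ _ := by gcongr <;> norm_num
    rw [hr]
    linarith
  have hY30 : ∀ t ∈ Ico (σ i) t1, √(Yt x w i t) ≤ 30 * a i := by
    intro t ht
    have ht0 : 0 ≤ t - σ i := by linarith [ht.1]
    have hel : (t - σ i) * Gl ≤ 324 / 10000 := by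
      have := g.el' h h1 hi
      have h2 : (t - σ i) * (L i * a i) ≤ (t1 - σ i) * (L i * a i) := by gcongr; exact ht.2.le
      rw [hGl, ← mul_div_assoc, div_le_iff₀ hlm]
      linarith
    have h2 := g.grow i (α := σ i) (t := t) (q := r) (c := c) (η := 1 / 10 ^ 6 * a i) (σnn h hi)
      ht.1 (ht.2.trans_le hT) hr0 hc0 (by positivity)
      (fun τ hτ => hU τ ⟨hτ.1.le, hτ.2.trans ht.2⟩)
      (fun τ hτ => hx τ ⟨hτ.1.le, hτ.2.trans ht.2⟩)
      (fun τ hτ => hadd τ ⟨hτ.1.le, hτ.2.trans ht.2⟩)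
    rw [h.aY i hi] at h2
    have h3 : r * (t - σ i) ≤ 329 / 100 := by
      have e : r * (t - σ i) = 1014 / 10 * ((t - σ i) * Gl) := by rw [hr]; ring
      rw [e]
      linarith
    have h4 : 2 * c * (t - σ i) ≤ 1 / 10 ^ 6 * a i := by
      calc 2 * c * (t - σ i) = 2 / 10 ^ 10 * a i * ((t - σ i) * Gl) := by rw [hc]; ring
        _ ≤ 2 / 10 ^ 10 * a i * (324 / 10000) := by gcongr
        _ = (2 / 10 ^ 10 * (324 / 10000)) * a i := by ring
        _ ≤ _ := by gcongr; norm_num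
    have h5 := exp33 h3
    have h6 := Real.exp_pos (r * (t - σ i))
    have h7 : 0 ≤ 2 * c * (t - σ i) := by positivity
    calc √(Yt x w i t) ≤ Real.exp (r * (t - σ i)) * (a i + 1 / 10 ^ 6 * a i + 2 * c * (t - σ i)) :=
          h2
      _ ≤ 29 * (a i + 1 / 10 ^ 6 * a i + 1 / 10 ^ 6 * a i) := by gcongr
      _ ≤ _ := by linarith
  have hw : ∀ t ∈ Ico (σ i) t1, w i t ≤ 200 * dl1 lam * a i := by
    intro t ht
    refine g.wbar i (σnn h hi) ht.1 (ht.2.trans_le hT) (by positivity) (fun τ hτ => ?_)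
      (h.wi i hi)
    have hτ1 : τ ∈ Ico (σ i) t1 := ⟨hτ.1.le, hτ.2.trans ht.2⟩
    have hτI : τ ∈ Ico 0 T := ⟨(σnn h hi).trans hτ1.1, hτ1.2.trans_le hT⟩
    have hL := hlow τ hτ1
    have hA := hL.A
    have hA0 := g.A_nonneg hτI i
    have hY := hY30 τ hτ1
    have hLi := q.Lp i
    have hSd := S_dl1 q
    have h2 : (if i = 0 then 0 else L (i - 1) * At lam x w i τ
        * (|x (i - 1) τ| + w (i - 1) τ)) ≤ L i * (103 * a i) * (102 * a i) := by
      split_ifs with h0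
      · positivity
      · have hz := hL.z h0
        have hw0 := g.sy.w0 (i - 1) τ hτI
        have h7 := q.Lp (i - 1)
        have h8 := q.Lmono (show i - 1 ≤ i by omega)
        gcongr
    unfold wfc
    calc N * (L i * (At lam x w i τ + √(Yt x w i τ)) * √(Yt x w i τ)
          + (if i = 0 then 0 else L (i - 1) * At lam x w i τ * (|x (i - 1) τ| + w (i - 1) τ)))
        ≤ N * (L i * (103 * a i + 30 * a i) * (30 * a i) + L i * (103 * a i) * (102 * a i)) := by
          gcongr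
      _ = (14496 * N) * (L i * a i) * a i := by ring
      _ ≤ (10 ^ 20 * N) * (L i * a i) * 1 := by gcongr; norm_num
      _ ≤ (Real.exp lam * dl1 lam) * (L i * a i) * 1 := by gcongr
      _ ≤ (Real.exp lam * dl1 lam) * (L i * a i) * 200 := by gcongr; norm_num
      _ = _ := by ring
  refine ⟨fun t ht => ⟨hlow t ht, hY30 t ht, hw t ht⟩, fun hin t ht => ?_⟩
  have hσσ : σ i ≤ σ (i + 1) := (h.σlt i hin).le
  have hG1 := g.Gpos h (i + 1) (by omega)
  have ha1' := apos h (i + 1) (by omega)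
  have hst := g.Gstep h hin
  have has := astep h hin
  have ht0 : 0 ≤ t - σ (i + 1) := by linarith [ht.1]
  have hel2 : (t - σ (i + 1)) * Gl ≤ 1 / 10 ^ 25 := by
    have h3 := g.el' h h1 (i := i + 1) (by omega)
    have h2 : (t - σ (i + 1)) * (L (i + 1) * a (i + 1))
        ≤ (t1 - σ (i + 1)) * (L (i + 1) * a (i + 1)) := by gcongr; exact ht.2.le
    have h4 : (t - σ (i + 1)) * (lam * (9 / 1000) * (L i * a i)) ≤ 324 / 10000 * lam :=
      (by gcongr : _ ≤ _).trans (h2.trans h3)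
    have h5 : ((t - σ (i + 1)) * (L i * a i)) * lam ≤ 4 * lam := by nlinarith
    have h6 := le_of_mul_le_mul_right h5 hlm
    rw [hGl, ← mul_div_assoc, div_le_iff₀ hlm]
    linarith
  have h2 := g.grow i (α := σ (i + 1)) (t := t) (q := r) (c := c) (η := 1 / 10 ^ 6 * a i)
    (σnn h (by omega)) ht.1 (ht.2.trans_le hT) hr0 hc0 (by positivity)
    (fun τ hτ => hU τ ⟨hσσ.trans hτ.1.le, hτ.2.trans ht.2⟩)
    (fun τ hτ => hx τ ⟨hσσ.trans hτ.1.le, hτ.2.trans ht.2⟩)
    (fun τ hτ => hadd τ ⟨hσσ.trans hτ.1.le, hτ.2.trans ht.2⟩)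
  have hσT : σ (i + 1) < T := (σmono h (by omega) le_rfl).trans_lt h.σT
  have hwσ : w i (σ (i + 1)) ≤ a (i + 1) := by
    have h3 : w i (σ (i + 1)) ≤ 200 * dl1 lam * a i :=
      hw (σ (i + 1)) ⟨hσσ, ht.1.trans_lt ht.2⟩
    calc w i (σ (i + 1)) ≤ 200 * dl1 lam * a i := h3
      _ ≤ 200 * dl1 lam * (1000 / 9 * a (i + 1)) := by gcongr
      _ = (200000 / 9 * dl1 lam) * a (i + 1) := by ring
      _ ≤ 1 * a (i + 1) := by gcongr; linarith
      _ = _ := one_mul _
  have h3 : √(Yt x w i (σ (i + 1))) ≤ 1001 / 10 * a (i + 1) := by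
    have hI : σ (i + 1) ∈ Ico 0 T := ⟨σnn h (by omega), hσT⟩
    rw [g.Y_succ hI, h.cross i hin]
    have h4 : Yt x w (i + 1) (σ (i + 1)) = a (i + 1) ^ 2 := by
      rw [← h.aY (i + 1) (by omega), Real.sq_sqrt (Y_nonneg _ _ _ _)]
    rw [h4]
    have hw0 := g.sy.w0 i _ hI
    have h5 : w i (σ (i + 1)) ^ 2 ≤ a (i + 1) ^ 2 := by gcongr
    apply Real.sqrt_le_iff.2
    constructor
    · positivity
    · nlinarith
  have h4 : r * (t - σ (i + 1)) ≤ 1 / 1000 := by
    have e : r * (t - σ (i + 1)) = 1014 / 10 * ((t - σ (i + 1)) * Gl) := by rw [hr]; ring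
    rw [e]
    linarith
  have h6 : 2 * c * (t - σ (i + 1)) ≤ 1 / 1000 * a (i + 1) := by
    calc 2 * c * (t - σ (i + 1)) = 2 / 10 ^ 10 * a i * ((t - σ (i + 1)) * Gl) := by rw [hc]; ring
      _ ≤ 2 / 10 ^ 10 * (1000 / 9 * a (i + 1)) * (1 / 10 ^ 25) := by gcongr
      _ = (2 / 10 ^ 10 * (1000 / 9) / 10 ^ 25) * a (i + 1) := by ring
      _ ≤ _ := by gcongr ?_ * _; norm_num
  have h7 := exp_le1 h4
  have h8 := Real.exp_pos (r * (t - σ (i + 1)))
  have h9 : 1 / 10 ^ 6 * a i ≤ 1 / 1000 * a (i + 1) := by linarith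
  have h10 : 0 ≤ 2 * c * (t - σ (i + 1)) := by positivity
  calc √(Yt x w i t) ≤ Real.exp (r * (t - σ (i + 1))) * (√(Yt x w i (σ (i + 1)))
        + 1 / 10 ^ 6 * a i + 2 * c * (t - σ (i + 1))) := h2
    _ ≤ 1002 / 1000 * (1001 / 10 * a (i + 1) + 1 / 1000 * a (i + 1) + 1 / 1000 * a (i + 1)) := by
        gcongr
    _ ≤ 101 * a (i + 1) := by linarith

end Gd

end Pool.Agent.Y5.E
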