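import Pool.Agent.Y5.E.Q6

/-! Forces, the previous mode, and the growth rates during a stage. -/

open Set Filter Topology MeasureTheory

set_option autoImplicit false

namespace Pool.Agent.Y5.E

open Pool.Agent.Y5.D (vf3)

section seq

variable {lam N : ℝ} {L C ℓ : ℕ → ℝ} {B : ℕ → ℕ → ℝ}

/-- `N * lam * 10^30 * dl1 * (1/ρ)` is tiny for `ρ ≥ 0.74 C` -/
lemma dl1_ρ (q : Pm lam N L C ℓ B) {n : ℕ} {ρ : ℝ} (h : 74 / 100 * C n ≤ ρ) :
    10 ^ 30 * N * lam ^ 2 * dl1 lam ≤ 1 / 10 ^ 20 * ρ := by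
  have h1 := q.N_le
  have h2 := q.EE_big
  have h3 := EE_pos lam
  have h4 := q.EE_lam
  have h5 := q.C_lo n
  have hN := q.N_one
  have hl := q.lamp
  have hd := dl1_pos lam
  have hC := q.Cp n
  have hlE : lam ≤ EE lam := by linarith
  have h6 : EE lam ^ 5 * Real.exp (-(2 / 5) * lam)
      ≤ Real.exp (-(301 / 10000 + 1 / 10) * lam) := q.EE_exp 5 (by norm_num)
  have h7 : Real.exp (-(301 / 10000 + 1 / 10) * lam)
      = Real.exp (-(301 / 10000) * lam) * Real.exp (-(1 / 10) * lam) := by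
    rw [← Real.exp_add]; congr 1; ring
  have h8 : Real.exp (-(1 / 10) * lam) ≤ 1 / 10 ^ 20 := q.exp_small (by norm_num)
  have h9 : (0 : ℝ) < Real.exp (-(301 / 10000) * lam) := Real.exp_pos _
  have h10 : EE lam ^ 5 * dl1 lam ≤ C n * (1 / 10 ^ 20) := by
    rw [dl1]
    calc _ ≤ Real.exp (-(301 / 10000) * lam) * Real.exp (-(1 / 10) * lam) := by
          rw [← h7]; exact h6
      _ ≤ C n * (1 / 10 ^ 20) := by gcongr
  have h11 : 10 ^ 30 * N * lam ^ 2 * dl1 lam ≤ EE lam ^ 4 * dl1 lam := by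
    have : 10 ^ 30 * N * lam ^ 2 ≤ EE lam ^ 4 := by
      calc 10 ^ 30 * N * lam ^ 2 ≤ EE lam * EE lam * EE lam ^ 2 := by gcongr; linarith
        _ = _ := by ring
    gcongr
  have h12 : 2 * (EE lam ^ 4 * dl1 lam) ≤ EE lam ^ 5 * dl1 lam := by
    have : 2 * EE lam ^ 4 ≤ EE lam ^ 5 := by
      calc 2 * EE lam ^ 4 ≤ EE lam * EE lam ^ 4 := by gcongr; linarith
        _ = _ := by ring
    nlinarith
  have h13 : C n ≤ 2 * ρ := by linarith
  nlinarith

end seq

namespace Gd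

variable {lam N : ℝ} {L C ℓ : ℕ → ℝ} {B : ℕ → ℕ → ℝ} {T : ℝ} {x w f : ℕ → ℝ → ℝ}
variable {n : ℕ} {σ a : ℕ → ℝ} {t1 t : ℝ}

/-- the force on the mode `n+1` -/
lemma f1 (g : Gd lam N L C ℓ B T x w f) (p : Pw lam L C T x w n a t) :
    |f (n + 1) t| ≤ 1 / 10 ^ 10 * (L n * a n ^ 2 * rt C x n t) := by
  have q := g.q
  have hf := g.sy.fb (n + 1) t p.mem
  have hL := q.Lp n
  have ha := p.a0
  have hρ := p.ρ0
  have hd := dl1_pos lam
  have hl := q.lamp
  have hl1 := q.lam1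
  have hN := q.N_one
  have hb : bb lam C x a n 0 t ≤ a n * rt C x n t := by
    refine p.b0.trans ?_
    have : Real.exp (-(147 / 10000) * lam) ≤ 1 / 10 ^ 20 := q.exp_small (by norm_num)
    have h2 : 0 < a n * rt C x n t := by positivity
    nlinarith
  have hY1 : √(Yt x w (n + 1) t) ≤ a n := by
    have := p.Y1
    have := p.X2
    linarith
  set ρ := rt C x n t with hρd
  have hA0 := g.A_nonneg p.mem (n + 1)
  have hAw0 := g.Aw_nonneg p.mem (n + 1)
  have hU0 := g.Uw_nonneg p.mem (n + 1)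
  have t1 : L (n + 1) * (At lam x w (n + 1) t + √(Yt x w (n + 1) t)) * √(Wt w (n + 1) t)
      ≤ 6400 * lam * dl1 lam * (L n * a n ^ 2 * ρ) := by
    rw [q.L_succ n]
    calc lam * L n * (At lam x w (n + 1) t + √(Yt x w (n + 1) t)) * √(Wt w (n + 1) t)
        ≤ lam * L n * (31 * a n + a n) * (200 * dl1 lam * a n * ρ) := by
          have := p.A1
          have := p.W1
          gcongr
      _ = _ := by ring
  have t2 : Uw L w (n + 1) t * √(Yt x w (n + 1) t) ≤ 10 ^ 4 * dl1 lam * (L n * a n ^ 2 * ρ) := by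
    calc Uw L w (n + 1) t * √(Yt x w (n + 1) t)
        ≤ (201 * dl1 lam * (L n * a n)) * (31 * a n * ρ) := by
          have := p.Uw1
          have := p.Y1'
          gcongr
      _ = (201 * 31) * (dl1 lam * (L n * a n ^ 2 * ρ)) := by ring
      _ ≤ 10 ^ 4 * (dl1 lam * (L n * a n ^ 2 * ρ)) := by gcongr; norm_num
      _ = _ := by ring
  have t3 : L (n + 1) * Aw lam w (n + 1) t * √(Yt x w (n + 1 + 1) t)
      ≤ 402 * lam * dl1 lam * (L n * a n ^ 2 * ρ) := by
    rw [q.L_succ n]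
    have h2 : √(Yt x w (n + 1 + 1) t) ≤ 2 * (a n * ρ) := p.Y2.trans (by linarith)
    calc lam * L n * Aw lam w (n + 1) t * √(Yt x w (n + 1 + 1) t)
        ≤ lam * L n * (201 * dl1 lam * a n) * (2 * (a n * ρ)) := by
          have := p.Aw1
          gcongr
      _ = _ := by ring
  have t4 : loc L x w (n + 1) t ≤ 10 ^ 8 * dl1 lam * (L n * a n ^ 2) :=
    p.lc1.trans (le_of_eq (by ring))
  have hsm := dl1_ρ q p.ρ1
  rw [← hρd] at hsm
  have hρ1 : ρ ≤ 1 := by have := p.ρ2; linarith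
  have hl2 : 1 ≤ lam ^ 2 := one_le_pow₀ hl1
  have hll : lam ≤ lam ^ 2 := by nlinarith
  have hP : 0 < L n * a n ^ 2 := by positivity
  calc |f (n + 1) t| ≤ N * (6400 * lam * dl1 lam * (L n * a n ^ 2 * ρ)
        + 10 ^ 4 * dl1 lam * (L n * a n ^ 2 * ρ) + 402 * lam * dl1 lam * (L n * a n ^ 2 * ρ)
        + 10 ^ 8 * dl1 lam * (L n * a n ^ 2)) := by
        refine hf.trans ?_
        gcongr
    _ ≤ N * (6400 * lam ^ 2 * dl1 lam * (L n * a n ^ 2 * 1)
        + 10 ^ 4 * lam ^ 2 * dl1 lam * (L n * a n ^ 2 * 1)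
        + 402 * lam ^ 2 * dl1 lam * (L n * a n ^ 2 * 1)
        + 10 ^ 8 * lam ^ 2 * dl1 lam * (L n * a n ^ 2)) := by
        have e1 : 10 ^ 4 * dl1 lam * (L n * a n ^ 2 * ρ)
            ≤ 10 ^ 4 * lam ^ 2 * dl1 lam * (L n * a n ^ 2 * 1) := by
          calc 10 ^ 4 * dl1 lam * (L n * a n ^ 2 * ρ)
              = 10 ^ 4 * 1 * dl1 lam * (L n * a n ^ 2 * ρ) := by ring
            _ ≤ _ := by gcongr
        have e2 : 10 ^ 8 * dl1 lam * (L n * a n ^ 2)
            ≤ 10 ^ 8 * lam ^ 2 * dl1 lam * (L n * a n ^ 2) := by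
          calc 10 ^ 8 * dl1 lam * (L n * a n ^ 2)
              = 10 ^ 8 * 1 * dl1 lam * (L n * a n ^ 2) := by ring
            _ ≤ _ := by gcongr
        have e3 : 6400 * lam * dl1 lam * (L n * a n ^ 2 * ρ)
            ≤ 6400 * lam ^ 2 * dl1 lam * (L n * a n ^ 2 * 1) := by gcongr
        have e4 : 402 * lam * dl1 lam * (L n * a n ^ 2 * ρ)
            ≤ 402 * lam ^ 2 * dl1 lam * (L n * a n ^ 2 * 1) := by gcongr
        gcongr ?_ * ?_
        linarith
    _ = 100016802 * (N * lam ^ 2 * dl1 lam) * (L n * a n ^ 2) := by ring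
    _ ≤ 10 ^ 10 * (N * lam ^ 2 * dl1 lam) * (L n * a n ^ 2) := by
        gcongr
        norm_num
    _ = 1 / 10 ^ 20 * (10 ^ 30 * N * lam ^ 2 * dl1 lam) * (L n * a n ^ 2) := by ring
    _ ≤ 1 / 10 ^ 20 * (1 / 10 ^ 20 * ρ) * (L n * a n ^ 2) := by gcongr
    _ = (1 / 10 ^ 40) * (L n * a n ^ 2 * ρ) := by ring
    _ ≤ _ := by
        have : 0 < L n * a n ^ 2 * ρ := by positivity
        gcongr ?_ * _
        norm_num

/-- the force on the mode `n` -/
lemma f0 (g : Gd lam N L C ℓ B T x w f) (p : Pw lam L C T x w n a t) :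
    |f n t| ≤ 1 / 10 ^ 10 / lam * (L n * a n ^ 2) := by
  have q := g.q
  have hf := g.sy.fb n t p.mem
  have hL := q.Lp n
  have ha := p.a0
  have hd := dl1_pos lam
  have hl := q.lamp
  have hl1 := q.lam1
  have hN := q.N_one
  have hY1 : √(Yt x w (n + 1) t) ≤ a n := by
    have := p.Y1
    have := p.X2
    linarith
  have hρ1 : rt C x n t ≤ 1 := by have := p.ρ2; linarith
  have hρ0 := p.ρ0
  have hA0 := g.A_nonneg p.mem n
  have hAw0 := g.Aw_nonneg p.mem n
  have hU0 := g.Uw_nonneg p.mem n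
  have hw0 := g.sy.w0 n t p.mem
  have hGl : L n * a n / lam ≤ L n * a n := div_le_self (by positivity) hl1
  have hW : √(Wt w n t) ≤ 400 * dl1 lam * a n := by
    have h1 : √(Wt w n t) ≤ w n t + √(Wt w (n + 1) t) := by
      rw [g.W_succ p.mem]
      have h3 := Real.sqrt_nonneg (Wt w (n + 1) t)
      have h4 := Real.sq_sqrt (W_nonneg w (n + 1) t)
      apply Real.sqrt_le_iff.2
      constructor
      · positivity
      · nlinarith [mul_nonneg hw0 h3]
    have h2 : 200 * dl1 lam * a n * rt C x n t ≤ 200 * dl1 lam * a n * 1 := by gcongr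
    have := p.wn
    have := p.W1
    linarith
  have s1 : L n * (At lam x w n t + √(Yt x w n t)) * √(Wt w n t)
      ≤ 10 ^ 5 * dl1 lam * (L n * a n ^ 2) := by
    calc L n * (At lam x w n t + √(Yt x w n t)) * √(Wt w n t)
        ≤ L n * (103 * a n + 30 * a n) * (400 * dl1 lam * a n) := by
          have := p.low.A
          have := p.Yn
          gcongr
      _ = (133 * 400) * (dl1 lam * (L n * a n ^ 2)) := by ring
      _ ≤ 10 ^ 5 * (dl1 lam * (L n * a n ^ 2)) := by gcongr; norm_num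
      _ = _ := by ring
  have s2 : Uw L w n t * √(Yt x w n t) ≤ 10 ^ 7 * dl1 lam * (L n * a n ^ 2) := by
    calc Uw L w n t * √(Yt x w n t) ≤ (10 ^ 5 * dl1 lam * (L n * a n)) * (30 * a n) := by
          have h1 := p.low.Uw
          have h2 : 10 ^ 5 * dl1 lam * (L n * a n / lam) ≤ 10 ^ 5 * dl1 lam * (L n * a n) := by
            gcongr
          have h3 := h1.trans h2
          have := p.Yn
          gcongr
      _ = (10 ^ 5 * 30) * (dl1 lam * (L n * a n ^ 2)) := by ring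
      _ ≤ 10 ^ 7 * (dl1 lam * (L n * a n ^ 2)) := by gcongr; norm_num
      _ = _ := by ring
  have s3 : L n * Aw lam w n t * √(Yt x w (n + 1) t) ≤ 10 ^ 5 * dl1 lam * (L n * a n ^ 2) := by
    calc L n * Aw lam w n t * √(Yt x w (n + 1) t) ≤ L n * (10 ^ 5 * dl1 lam * a n) * a n := by
          have := p.low.Aw
          gcongr
      _ = _ := by ring
  have s4 : loc L x w n t ≤ 10 ^ 11 * dl1 lam * (L n * a n ^ 2) := by
    calc loc L x w n t ≤ 10 ^ 11 * dl1 lam * (L n * a n / lam) * a n := p.low.lc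
      _ ≤ 10 ^ 11 * dl1 lam * (L n * a n) * a n := by gcongr
      _ = _ := by ring
  have hsm := dl1_ρ q p.ρ1
  have hP : 0 < L n * a n ^ 2 := by positivity
  have hsm2 : 10 ^ 22 * N * lam * dl1 lam ≤ 1 := by
    have h1 : 10 ^ 22 * N * lam * dl1 lam ≤ 10 ^ 30 * N * lam ^ 2 * dl1 lam := by
      have : lam ≤ lam ^ 2 := by nlinarith
      gcongr <;> norm_num
    have h2 : 1 / 10 ^ 20 * rt C x n t ≤ 1 := by linarith
    linarith
  calc |f n t| ≤ N * (10 ^ 5 * dl1 lam * (L n * a n ^ 2) + 10 ^ 7 * dl1 lam * (L n * a n ^ 2)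
        + 10 ^ 5 * dl1 lam * (L n * a n ^ 2) + 10 ^ 11 * dl1 lam * (L n * a n ^ 2)) := by
        refine hf.trans ?_
        gcongr
    _ = (10 ^ 5 + 10 ^ 7 + 10 ^ 5 + 10 ^ 11) * (N * dl1 lam) * (L n * a n ^ 2) := by ring
    _ ≤ 10 ^ 12 * (N * dl1 lam) * (L n * a n ^ 2) := by
        gcongr ?_ * _ * _
        norm_num
    _ = 1 / 10 ^ 10 / lam * (10 ^ 22 * N * lam * dl1 lam) * (L n * a n ^ 2) := by
        field_simp
    _ ≤ 1 / 10 ^ 10 / lam * 1 * (L n * a n ^ 2) := by gcongr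
    _ = _ := by ring

end Gd

end Pool.Agent.Y5.E
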