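import Pool.Agent.Y5.E.Q8

/-! The growth of the ratio during a stage. -/

open Set Filter Topology MeasureTheory

set_option autoImplicit false

namespace Pool.Agent.Y5.E

open Pool.Agent.Y5.D (vf3)

namespace Gd

variable {lam N : ℝ} {L C ℓ : ℕ → ℝ} {B : ℕ → ℕ → ℝ} {T : ℝ} {x w f : ℕ → ℝ → ℝ}
variable {n : ℕ} {σ a : ℕ → ℝ} {t1 t : ℝ}

/-- lower bound for the growth of the next mode -/
lemma Zder (g : Gd lam N L C ℓ B T x w f) (h : Stg lam L T x w n σ a)
    (p : Pw lam L C T x w n a t) :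
    C n * L n * x n t ^ 2 + L n * x n t * x (n + 1) t
      - 11 / 10000 * (L n * x n t ^ 2 * rt C x n t)
      ≤ vf3 L C ℓ B (fun k => x k t) (n + 1) + f (n + 1) t := by
  have q := g.q
  obtain ⟨s1, s2, s3, s4, s5, s6, s7⟩ := g.smalls h p
  have hX : 0 < x n t := by have := p.X1; have := p.a0; linarith
  have haX : a n ≤ 10 / 9 * x n t := by have := p.X1; linarith
  have hL := q.Lp n
  have hL1 := q.Lp (n + 1)
  have hC1 := q.Cp (n + 1)
  have hρ := p.ρ0
  have hZ := p.Z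
  set X := x n t with hXd
  set Z := x (n + 1) t with hZd
  set ρ := rt C x n t with hρd
  set W := L n * X with hW
  have hWp : 0 < W := by positivity
  have hZ0 := abs_nonneg Z
  have hWZ : W * |Z| ≤ L n * X ^ 2 * ρ := by
    calc W * |Z| ≤ W * (ρ * X) := by gcongr
      _ = _ := by rw [hW]; ring
  have hP : 0 < L n * X ^ 2 * ρ := by positivity
  -- strain
  have hst : W * Z - (1 / 1000 + 1 / 10 ^ 20) * (W * |Z|)
      ≤ Z * ∑ i ∈ Finset.range (n + 1), L i * B i (n + 1) * x i t := by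
    rw [Finset.sum_range_succ]
    have h3 := strain (x := x) q (m := n) (k := n + 1) (by omega) t
    have hBl := q.B_lo n (n + 1) (by omega)
    have hBh := q.B_hi n (n + 1) (by omega)
    set S := ∑ i ∈ Finset.range n, L i * B i (n + 1) * x i t with hS
    have h4 : |S| ≤ 1 / 10 ^ 20 * W := h3.trans s2
    have h5 : |Z * S| ≤ 1 / 10 ^ 20 * W * |Z| := by
      rw [abs_mul, mul_comm]; gcongr
    have h6 : |Z * (W * (B n (n + 1) - 1))| ≤ 1 / 1000 * W * |Z| := by
      rw [abs_mul, abs_mul, abs_of_pos hWp]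
      have : |B n (n + 1) - 1| ≤ 1 / 1000 := by rw [abs_le]; constructor <;> linarith
      calc |Z| * (W * |B n (n + 1) - 1|) ≤ |Z| * (W * (1 / 1000)) := by gcongr
        _ = _ := by ring
    have h7 := neg_le_of_abs_le h5
    have h8 := neg_le_of_abs_le h6
    have e : Z * (S + L n * B n (n + 1) * x n t) = Z * S + Z * (W * (B n (n + 1) - 1)) + W * Z := by
      rw [hW, hXd]; ring
    rw [e]
    linarith
  -- the other terms
  obtain ⟨_, _, h3, h4⟩ := g.vf_terms p.mem (n + 1)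
  have h5 : L (n + 1) * ∑' k : ℕ, B (n + 1) (n + 1 + 1 + k) * x (n + 1 + 1 + k) t ^ 2
      ≤ 1 / 10 ^ 10 * (L n * X ^ 2 * ρ) := h3.trans s4
  have h6 : L (n + 1) * C (n + 1) * Z * x (n + 1 + 1) t ≤ 1 / 10 ^ 10 * (W * |Z|) := by
    refine (le_abs_self _).trans (h4.trans ?_)
    calc C (n + 1) * L (n + 1) * |x (n + 1 + 1) t| * |Z|
        ≤ (1 / 10 ^ 10 * W) * |Z| := by
          gcongr
      _ = _ := by ring
  have h7 : ℓ (n + 1) * Z ≤ 12 / 10 ^ 7 * (W * |Z|) := by
    calc ℓ (n + 1) * Z ≤ ℓ (n + 1) * |Z| := by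
          have := q.ℓ_nonneg (n + 1)
          gcongr
          exact le_abs_self _
      _ ≤ (12 / 10 ^ 7 * W) * |Z| := by gcongr
      _ = _ := by ring
  have h8 : |f (n + 1) t| ≤ 2 / 10 ^ 10 * (L n * X ^ 2 * ρ) := by
    refine (g.f1 p).trans ?_
    rw [← hρd]
    have h9 : a n ^ 2 ≤ 2 * X ^ 2 := by
      calc a n ^ 2 ≤ (10 / 9 * X) ^ 2 := by have := p.a0; gcongr
        _ = (100 / 81) * X ^ 2 := by ring
        _ ≤ _ := by gcongr; norm_num
    calc 1 / 10 ^ 10 * (L n * a n ^ 2 * ρ) ≤ 1 / 10 ^ 10 * (L n * (2 * X ^ 2) * ρ) := by gcongr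
      _ = _ := by ring
  have h8' := neg_le_of_abs_le h8
  have hvf : vf3 L C ℓ B (fun k => x k t) (n + 1) = -(ℓ (n + 1) * Z)
      + C n * L n * X ^ 2 - L (n + 1) * C (n + 1) * Z * x (n + 1 + 1) t
      + Z * ∑ i ∈ Finset.range (n + 1), L i * B i (n + 1) * x i t
      - L (n + 1) * ∑' k : ℕ, B (n + 1) (n + 1 + 1 + k) * x (n + 1 + 1 + k) t ^ 2 := by
    have hn1 : ¬ (n + 1 = 0) := Nat.succ_ne_zero n
    unfold vf3
    rw [if_neg hn1]
    have e5 : n + 1 - 1 = n := by omega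
    rw [e5]
    ring
  rw [hvf]
  have h10 : 0 ≤ W * |Z| := by positivity
  linarith

/-- upper and lower bounds for the growth of the current mode -/
lemma Xud (g : Gd lam N L C ℓ B T x w f) (h : Stg lam L T x w n σ a)
    (hc : Cur lam L T x w n σ a t1) (ht : t ∈ Ico (σ n) t1)
    (p : Pw lam L C T x w n a t) :
    |vf3 L C ℓ B (fun k => x k t) n + f n t| ≤ 3 / 10000 * (L n * x n t ^ 2) := by
  have q := g.q
  obtain ⟨s1, s2, s3, s4, s5, s6, s7⟩ := g.smalls h p
  have hX := Xpos h hc ht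
  have ha := p.a0
  have haX : a n ≤ 10 / 9 * x n t := by have := p.X1; linarith
  have hL := q.Lp n
  have hCp := q.Cp n
  have hC0 := q.C_small n
  have hYn := (hc.act t ht).1.le
  have hlb := q.lam_big
  have hl := q.lamp
  have h1 := g.vf_le p.mem n hX.le
  have h2 := g.vf_ge p.mem n
  rw [abs_of_pos hX] at h2
  have hW : 0 < L n * x n t ^ 2 := by positivity
  have hZ : |x (n + 1) t| ≤ x n t := by
    refine p.Z.trans ?_
    have := p.ρ2
    calc rt C x n t * x n t ≤ 1 * x n t := by gcongr; linarith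
      _ = _ := one_mul _
  have h3 : C n * L n * |x (n + 1) t| ≤ 1 / 10 ^ 10 * (L n * x n t) := by
    calc C n * L n * |x (n + 1) t| ≤ 1 / 10 ^ 20 * L n * x n t := by gcongr
      _ = (1 / 10 ^ 20) * (L n * x n t) := by ring
      _ ≤ _ := by gcongr ?_ * _; norm_num
  have hU := U_nonneg (x := x) q n t
  have h4 : (C n * L n * |x (n + 1) t| + 1001 / 1000 * Ut L x n t) * x n t
      ≤ 1 / 10 ^ 6 * (L n * x n t ^ 2) := by
    calc (C n * L n * |x (n + 1) t| + 1001 / 1000 * Ut L x n t) * x n t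
        ≤ (1 / 10 ^ 6 * (L n * x n t)) * x n t := by
          gcongr
          have : 0 < L n * x n t := by positivity
          linarith
      _ = _ := by ring
  have h5 : (ℓ n + C n * L n * |x (n + 1) t| + 1001 / 1000 * Ut L x n t) * x n t
      ≤ 1 / 10 ^ 6 * (L n * x n t ^ 2) := by
    calc (ℓ n + C n * L n * |x (n + 1) t| + 1001 / 1000 * Ut L x n t) * x n t
        ≤ (1 / 10 ^ 6 * (L n * x n t)) * x n t := by
          gcongr
          have : 0 < L n * x n t := by positivity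
          linarith
      _ = _ := by ring
  have h6 : 1001 / 1000 * L n * Yt x w (n + 1) t ≤ 2 / 10 ^ 4 * (L n * x n t ^ 2) := by
    calc 1001 / 1000 * L n * Yt x w (n + 1) t ≤ 1001 / 1000 * L n * (1 / 100 * x n t) ^ 2 := by
          gcongr
      _ = (1001 / 1000 / 10 ^ 4) * (L n * x n t ^ 2) := by ring
      _ ≤ _ := mul_le_mul_of_nonneg_right (by norm_num) (by positivity)
  have h7 := src_nonneg (x := x) q n t
  have h8 : src L C x n t ≤ 1 / 10 ^ 10 * (L n * x n t ^ 2) := by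
    unfold src
    split_ifs with hn
    · positivity
    · have hz := p.low.z hn
      have hw0 := g.sy.w0 (n - 1) t p.mem
      have h9 : |x (n - 1) t| ≤ 102 * a n := by linarith
      have h10 : x (n - 1) t ^ 2 ≤ (102 * (10 / 9 * x n t)) ^ 2 := by
        rw [← sq_abs]; gcongr; exact h9.trans (by linarith)
      have h11 := q.C_small (n - 1)
      have h12 := q.Cp (n - 1)
      have h13 := q.Lp (n - 1)
      have h14 : L (n - 1) ≤ L n := q.Lmono (by omega)
      calc L (n - 1) * C (n - 1) * x (n - 1) t ^ 2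
          ≤ L n * (1 / 10 ^ 20) * (102 * (10 / 9 * x n t)) ^ 2 := by gcongr
        _ = (1 / 10 ^ 20 * (102 * (10 / 9)) ^ 2) * (L n * x n t ^ 2) := by ring
        _ ≤ _ := mul_le_mul_of_nonneg_right (by norm_num) (by positivity)
  have h9 : |f n t| ≤ 2 / 10 ^ 10 * (L n * x n t ^ 2) := by
    refine (g.f0 p).trans ?_
    have h10 : a n ^ 2 ≤ 2 * x n t ^ 2 := by
      calc a n ^ 2 ≤ (10 / 9 * x n t) ^ 2 := by gcongr
        _ = (100 / 81) * x n t ^ 2 := by ring
        _ ≤ _ := by gcongr; norm_num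
    calc 1 / 10 ^ 10 / lam * (L n * a n ^ 2) ≤ 1 / 10 ^ 10 / 1 * (L n * (2 * x n t ^ 2)) := by
          have := q.lam1
          gcongr
      _ = _ := by ring
  rw [abs_le]
  constructor
  · linarith
  · linarith

/-- the linear loss rate of the current mode -/
noncomputable def dl (lam : ℝ) (L ℓ : ℕ → ℝ) (a : ℕ → ℝ) (n : ℕ) : ℝ :=
  ℓ n + 1 / 10 ^ 9 / lam * (L n * a n)

/-- refined lower bound for the growth of the current mode -/
lemma Xlo (g : Gd lam N L C ℓ B T x w f) (h : Stg lam L T x w n σ a)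
    (p : Pw lam L C T x w n a t)
    (hst : 0 ≤ ∑ i ∈ Finset.range n, L i * B i n * x i t) :
    -(dl lam L ℓ a n * x n t) - C n * L n * x n t * |x (n + 1) t|
      - 1001 / 1000 * L n * x (n + 1) t ^ 2 ≤ vf3 L C ℓ B (fun k => x k t) n + f n t := by
  have q := g.q
  obtain ⟨s1, s2, s3, s4, s5, s6, s7⟩ := g.smalls h p
  have hX : 0 < x n t := by have := p.X1; have := p.a0; linarith
  have haX : a n ≤ 10 / 9 * x n t := by have := p.X1; linarith
  have hL := q.Lp n
  have ha := p.a0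
  have hl := q.lamp
  obtain ⟨_, _, h3, h4⟩ := g.vf_terms p.mem n
  have h5 := neg_abs_le (f n t)
  have h5' := g.f0 p
  rw [abs_of_pos hX] at h4
  have h6 := le_of_abs_le h4
  have h7 := src_nonneg (x := x) q n t
  have h8 : Yt x w (n + 1) t = x (n + 1) t ^ 2 + (w (n + 1) t ^ 2 + Yt x w (n + 2) t) := by
    rw [g.Y_succ p.mem (n + 1)]; ring
  rw [h8] at h3
  have h10 : 0 ≤ x n t * ∑ i ∈ Finset.range n, L i * B i n * x i t := by positivity
  have h11 : 1 / 10 ^ 10 / lam * (L n * a n ^ 2)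
      ≤ 2 * (1 / 10 ^ 10 / lam * (L n * a n * x n t)) := by
    calc 1 / 10 ^ 10 / lam * (L n * a n ^ 2) = 1 / 10 ^ 10 / lam * (L n * a n * a n) := by ring
      _ ≤ 1 / 10 ^ 10 / lam * (L n * a n * (2 * x n t)) := by gcongr; linarith
      _ = _ := by ring
  have h12 : 3 * (1 / 10 ^ 10 / lam * (L n * a n * x n t))
      ≤ 1 / 10 ^ 9 / lam * (L n * a n) * x n t := by
    have : 0 < 1 / lam * (L n * a n * x n t) := by positivity
    have e1 : 3 * (1 / 10 ^ 10 / lam * (L n * a n * x n t))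
        = 3 / 10 ^ 10 * (1 / lam * (L n * a n * x n t)) := by ring
    have e2 : 1 / 10 ^ 9 / lam * (L n * a n) * x n t
        = 1 / 10 ^ 9 * (1 / lam * (L n * a n * x n t)) := by ring
    rw [e1, e2]
    linarith
  have e : dl lam L ℓ a n * x n t = ℓ n * x n t + 1 / 10 ^ 9 / lam * (L n * a n) * x n t := by
    unfold dl; ring
  rw [e]
  unfold src at h7
  unfold vf3
  simp only
  have e2 : C n * L n * |x (n + 1) t| * x n t = C n * L n * x n t * |x (n + 1) t| := by ring
  linarith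

lemma dl_time (g : Gd lam N L C ℓ B T x w f) (h : Stg lam L T x w n σ a)
    (hc : Cur lam L T x w n σ a t1) (h1 : σ n ≤ t) (h2 : t ≤ t1) :
    dl lam L ℓ a n * (t - σ n) ≤ 1 / 10 ^ 5 := by
  have q := g.q
  have hG := g.Gpos h n le_rfl
  have hl := q.lamp
  have ht0 : 0 ≤ t - σ n := by linarith
  have hel : (t - σ n) * (L n * a n) ≤ 324 / 10000 * lam := by
    have h3 := g.el' h hc.le (le_refl n)
    have : (t - σ n) * (L n * a n) ≤ (t1 - σ n) * (L n * a n) := by
      gcongr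
    linarith
  have hvis := g.vis h n le_rfl
  have a1 : ℓ n ≤ 12 / 10 ^ 5 * (L n * a n) / lam := by
    rw [le_div_iff₀ hl]; linarith
  unfold dl
  calc (ℓ n + 1 / 10 ^ 9 / lam * (L n * a n)) * (t - σ n)
      ≤ (12 / 10 ^ 5 * (L n * a n) / lam + 1 / 10 ^ 9 / lam * (L n * a n)) * (t - σ n) := by
        gcongr
    _ = (12 / 10 ^ 5 + 1 / 10 ^ 9) / lam * ((t - σ n) * (L n * a n)) := by ring
    _ ≤ (12 / 10 ^ 5 + 1 / 10 ^ 9) / lam * (324 / 10000 * lam) := by gcongr
    _ = (12 / 10 ^ 5 + 1 / 10 ^ 9) * (324 / 10000) := by field_simp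
    _ ≤ _ := by norm_num

end Gd

/-- The growth of the ratio and the lower bound of the mode `n` during a stage. -/
theorem t_RAT : S_RAT := by
  intro lam N L C ℓ B T x w f n σ a t1 t g h hc ht hy hr0
  have q := g.q
  have hlm := q.lamp
  have hlmb := q.lam_big
  have hC := q.Cp n
  have hCs' := q.C_small n
  have h0 : 0 ≤ σ n := Gd.σnn h le_rfl
  have ha := Gd.apos h n le_rfl
  have hL := q.Lp n
  have hG := g.Gpos h n le_rfl
  have htT : t < T := ht.2.trans_le hc.leT
  -- pointwise facts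
  have hpw : ∀ τ ∈ Ico (σ n) t, Pw lam L C T x w n a τ := fun τ hτ =>
    g.pw h hc ⟨hτ.1, hτ.2.trans ht.2⟩ (hy τ hτ)
  have hX : ∀ τ ∈ Icc (σ n) t, 0 < x n τ := fun τ hτ =>
    Gd.Xpos h hc ⟨hτ.1, hτ.2.trans_lt ht.2⟩
  have hsub : Icc (σ n) t ⊆ Ico 0 T := fun τ hτ => ⟨h0.trans hτ.1, hτ.2.trans_lt htT⟩
  set r : ℝ → ℝ := fun τ => x (n + 1) τ / x n τ with hr
  set r' : ℝ → ℝ := fun τ => ((vf3 L C ℓ B (fun k => x k τ) (n + 1) + f (n + 1) τ) * x n τ
    - x (n + 1) τ * (vf3 L C ℓ B (fun k => x k τ) n + f n τ)) / x n τ ^ 2 with hr'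
  have hrc : ContinuousOn r (Icc (σ n) t) :=
    ((g.cont (n + 1)).mono hsub).div ((g.cont n).mono hsub) fun τ hτ => (hX τ hτ).ne'
  have hrd : ∀ τ ∈ Ioo (σ n) t, HasDerivAt r (r' τ) τ := fun τ hτ => by
    have hτT : τ ∈ Ioo 0 T := ⟨h0.trans_lt hτ.1, hτ.2.trans htT⟩
    exact (g.derivAt (n + 1) hτT).fun_div (g.derivAt n hτT) (hX τ ⟨hτ.1.le, hτ.2.le⟩).ne'
  have hrge : ∀ τ ∈ Ioo (σ n) t, 998 / 1000 * (L n * x n τ * rt C x n τ) ≤ r' τ :=
    fun τ hτ => by
      have p := hpw τ ⟨hτ.1.le, hτ.2⟩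
      have hXτ := hX τ ⟨hτ.1.le, hτ.2.le⟩
      exact rderE hXτ hL rfl p.ρ0 hC p.Z (g.Zder h p)
        (g.Xud h hc ⟨hτ.1.le, hτ.2.trans ht.2⟩ p)
  have hr'0 : ∀ τ ∈ Ioo (σ n) t, 0 ≤ r' τ := fun τ hτ => by
    refine le_trans ?_ (hrge τ hτ)
    have p := hpw τ ⟨hτ.1.le, hτ.2⟩
    have := p.ρ0
    have := hX τ ⟨hτ.1.le, hτ.2.le⟩
    positivity
  have hmonoAll : ∀ τ ∈ Icc (σ n) t, r (σ n) ≤ r τ := fun τ hτ =>
    mono_of hτ.1 (hrc.mono (Icc_subset_Icc_right hτ.2))
      (fun s hs => hrd s ⟨hs.1, hs.2.trans_le hτ.2⟩)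
      (fun s hs => hr'0 s ⟨hs.1, hs.2.trans_le hτ.2⟩)
  have hrt8 : -(C n / 8) ≤ r t := hr0.trans (hmonoAll t ⟨ht.1.le, le_rfl⟩)
  have hρ0 : ∀ τ ∈ Icc (σ n) t, 86 / 100 * C n ≤ rt C x n τ := fun τ hτ => by
    have h1 : -(C n / 8) ≤ r τ := hr0.trans (hmonoAll τ hτ)
    have e : rt C x n τ = r τ + 99 / 100 * C n := rfl
    rw [e]
    linarith
  -- lower bound for the mode
  have hXlow : ∀ b ∈ Icc (σ n) t, 99 / 100 * a n ≤ x n b := by
    intro b hb
    have hbt : b ≤ t1 := hb.2.trans ht.2.le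
    set d := Gd.dl lam L ℓ a n with hd
    have hmono := mono_of (f := fun τ => Real.log (x n τ) + 503 / 1000 * (rt C x n τ) ^ 2
        + d * τ)
      (f' := fun τ => (vf3 L C ℓ B (fun k => x k τ) n + f n τ) / x n τ
        + 503 / 1000 * (2 * (rt C x n τ) * r' τ) + d) hb.1
      (by
        refine ContinuousOn.add (ContinuousOn.add ?_ ?_) (by fun_prop)
        · exact ContinuousOn.log ((g.cont n).mono ((Icc_subset_Icc_right hb.2).trans hsub))
            fun τ hτ => (hX τ ⟨hτ.1, hτ.2.trans hb.2⟩).ne'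
        · exact continuousOn_const.mul (((hrc.mono (Icc_subset_Icc_right hb.2)).add
            continuousOn_const).pow 2))
      (fun τ hτ => by
        have hτ1 : τ ∈ Ioo (σ n) t := ⟨hτ.1, hτ.2.trans_le hb.2⟩
        have hτT : τ ∈ Ioo 0 T := ⟨h0.trans_lt hτ1.1, hτ1.2.trans htT⟩
        have h1 := (g.derivAt n hτT).log (hX τ ⟨hτ1.1.le, hτ1.2.le⟩).ne'
        have h2 := (((hrd τ hτ1).add_const (99 / 100 * C n)).fun_pow 2).const_mul
          (503 / 1000 : ℝ)
        have h3 := (h1.fun_add h2).fun_add ((hasDerivAt_id τ).const_mul d)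
        simpa [rt, hr] using h3)
      (fun τ hτ => by
        have hτ1 : τ ∈ Ioo (σ n) t := ⟨hτ.1, hτ.2.trans_le hb.2⟩
        have hτ2 : τ ∈ Ico (σ n) t := ⟨hτ1.1.le, hτ1.2⟩
        have p := hpw τ hτ2
        have hXτ := hX τ ⟨hτ1.1.le, hτ1.2.le⟩
        have hst := g.strain_nonneg h hc ht.2.le hy hτ2
        have h1 := g.Xlo h p hst
        have h2 := hrge τ hτ1
        have hρ := p.ρ0
        have hρ74 := p.ρ1
        have e1 : x (n + 1) τ = r τ * x n τ := by simp only [hr]; field_simp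
        have eρ : rt C x n τ = r τ + 99 / 100 * C n := rfl
        have h4 : -d - C n * (L n * x n τ * |r τ|) - 1001 / 1000 * (L n * x n τ * r τ ^ 2)
            ≤ (vf3 L C ℓ B (fun k => x k τ) n + f n τ) / x n τ := by
          rw [le_div_iff₀ hXτ]
          refine le_trans (le_of_eq ?_) h1
          rw [e1, abs_mul, abs_of_pos hXτ]; ring
        have h5' : 2 * (rt C x n τ) * (998 / 1000 * (L n * x n τ * rt C x n τ))
            ≤ 2 * (rt C x n τ) * r' τ := by gcongr
        have h6 : 0 < L n * x n τ := by positivity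
        have h7 : C n * |r τ| + 1001 / 1000 * r τ ^ 2
            ≤ 1002 / 1000 * (rt C x n τ) ^ 2 := by
          rw [eρ] at hρ74 ⊢
          rcases le_total 0 (r τ) with h8 | h8
          · rw [abs_of_nonneg h8]
            nlinarith [mul_nonneg h8 hC.le, sq_nonneg (C n), sq_nonneg (r τ)]
          · rw [abs_of_nonpos h8]
            have h9 : 0 ≤ -(r τ) := by linarith
            have h10 : -(r τ) ≤ C n / 4 := by linarith
            have h11 : (r τ) ^ 2 ≤ (C n / 4) ^ 2 := by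
              rw [← neg_sq]; gcongr
            have h12 : (74 / 100 * C n) ^ 2 ≤ (r τ + 99 / 100 * C n) ^ 2 := by
              gcongr
            have h13 : C n * -(r τ) ≤ C n * (C n / 4) := by gcongr
            nlinarith [sq_nonneg (C n)]
        have h8 := mul_le_mul_of_nonneg_left h7 h6.le
        nlinarith)
    have hdt : d * (b - σ n) ≤ 1 / 10 ^ 5 := g.dl_time h hc hb.1 hbt
    have hsq1 : 0 ≤ (rt C x n (σ n)) ^ 2 := sq_nonneg _
    have hsq2 : (rt C x n b) ^ 2 ≤ (2 / 100) ^ 2 := by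
      have h1 := g.rtb h hc (t := b) ⟨hb.1, hb.2.trans_lt ht.2⟩
      have h2 := hρ0 b hb
      have h3 : 0 ≤ rt C x n b := by linarith
      gcongr
      linarith
    have hlog : Real.log (x n (σ n)) - 1 / 1000 ≤ Real.log (x n b) := by
      have e : d * b - d * σ n = d * (b - σ n) := by ring
      norm_num at hsq2
      nlinarith
    have hXa := hX (σ n) ⟨le_rfl, ht.1.le⟩
    have hXt := hX b hb
    have h6 : x n (σ n) * Real.exp (-(1 / 1000)) ≤ x n b := by
      have := Real.exp_le_exp.2 hlog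
      rw [Real.exp_log hXt, sub_eq_add_neg, Real.exp_add, Real.exp_log hXa] at this
      exact this
    have h7 : 1 - 1 / 1000 ≤ Real.exp (-(1 / 1000)) := by
      have := Real.add_one_le_exp (-(1 / 1000) : ℝ); linarith
    have h8 := h.init
    have h9 : x n (σ n) * (1 - 1 / 1000) ≤ x n (σ n) * Real.exp (-(1 / 1000)) := by gcongr
    linarith
  refine ⟨fun τ hτ => ⟨r' τ, hrd τ hτ, hrge τ hτ⟩, hrt8, hXlow t ⟨ht.1.le, le_rfl⟩, ?_⟩
  -- the duration
  have hmono := mono_of (f := fun τ => Real.log (rt C x n τ) - 98 / 100 * (L n * a n) * τ)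
    (f' := fun τ => r' τ / rt C x n τ - 98 / 100 * (L n * a n)) ht.1.le
    (by
      refine ContinuousOn.sub (ContinuousOn.log (hrc.add continuousOn_const) ?_) (by fun_prop)
      intro τ hτ
      have := hρ0 τ hτ
      have e : rt C x n τ = r τ + 99 / 100 * C n := rfl
      rw [e] at this
      have h2 : 0 < r τ + 99 / 100 * C n := by linarith
      exact h2.ne')
    (fun τ hτ => by
      have h1 := hρ0 τ ⟨hτ.1.le, hτ.2.le⟩
      have h2 : 0 < rt C x n τ := by linarith
      have h3 := ((hrd τ hτ).add_const (99 / 100 * C n)).log h2.ne'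
      have h4 := h3.fun_sub ((hasDerivAt_id τ).const_mul (98 / 100 * (L n * a n)))
      simpa [rt, hr] using h4)
    (fun τ hτ => by
      have h1 := hρ0 τ ⟨hτ.1.le, hτ.2.le⟩
      have h2 : 0 < rt C x n τ := by linarith
      have h3 := hrge τ hτ
      have h4 := hXlow τ ⟨hτ.1.le, hτ.2.le⟩
      have h5 : 98 / 100 * (L n * a n) ≤ r' τ / rt C x n τ := by
        rw [le_div_iff₀ h2]
        refine le_trans ?_ h3
        calc 98 / 100 * (L n * a n) * rt C x n τ
            ≤ 998 / 1000 * (L n * (99 / 100 * a n)) * rt C x n τ := by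
              have : 0 < L n * a n * rt C x n τ := by positivity
              nlinarith
          _ ≤ 998 / 1000 * (L n * x n τ) * rt C x n τ := by gcongr
          _ = _ := by ring
      linarith)
  have hlog1 : Real.log (rt C x n t) ≤ 0 := by
    have h1 := g.rtb h hc (t := t) ⟨ht.1.le, ht.2⟩
    have h2 := hρ0 t ⟨ht.1.le, le_rfl⟩
    apply Real.log_nonpos
    · linarith
    · linarith
  have hlog2 : -(301 / 10000) * lam - 1 ≤ Real.log (rt C x n (σ n)) := by
    have h2 := hρ0 (σ n) ⟨le_rfl, ht.1.le⟩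
    rw [Real.le_log_iff_exp_le (by linarith)]
    have h9 := q.C_lo n
    have h10 : Real.exp (-(301 / 10000) * lam - 1)
        = Real.exp (-(301 / 10000) * lam) * Real.exp (-1) := by
      rw [← Real.exp_add]; congr 1
    rw [h10]
    have h11 : Real.exp (-1) ≤ 74 / 100 := by
      have := Real.exp_neg_one_lt_d9; linarith
    calc Real.exp (-(301 / 10000) * lam) * Real.exp (-1) ≤ C n * (74 / 100) := by gcongr
      _ ≤ rt C x n (σ n) := by linarith
  have hmono' : Real.log (rt C x n (σ n)) - 98 / 100 * (L n * a n) * σ n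
      ≤ Real.log (rt C x n t) - 98 / 100 * (L n * a n) * t := hmono
  nlinarith

end Pool.Agent.Y5.E
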